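import Pool.Agent.P.MP_4ebd9a_co.Defs

set_option autoImplicit false

namespace Pool.Agent.P.MP_4ebd9a_co

theorem pourable_of_zero {p : ℕ} {a : Fin 3 → ℕ} (i : Fin 3) (h : a i = 0) : Pourable p a :=
  ⟨0, fun _ => a, Nat.zero_le _, rfl, fun _ ht => absurd ht (Nat.not_lt_zero _), i, h⟩

theorem pourable_mono {p q : ℕ} {a : Fin 3 → ℕ} (h : Pourable p a) (hpq : p ≤ q) :
    Pourable q a := by
  obtain ⟨l, s, hl, h0, hs, hz⟩ := h
  exact ⟨l, s, hl.trans hpq, h0, hs, hz⟩

theorem pourable_step {p : ℕ} {a b : Fin 3 → ℕ} (hab : Step a b) (h : Pourable p b) :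
    Pourable (p + 1) a := by
  obtain ⟨l, s, hl, h0, hs, hz⟩ := h
  refine ⟨l + 1, fun t => Nat.casesOn t a s, Nat.succ_le_succ hl, rfl, ?_, hz⟩
  intro t ht
  cases t with
  | zero => simpa [h0] using hab
  | succ t => exact hs t (Nat.lt_of_succ_lt_succ ht)

theorem step_double {a b : Fin 3 → ℕ} (h : Step a b) :
    Step (fun k => 2 * a k) (fun k => 2 * b k) := by
  obtain ⟨i, j, hij, hle, hi, hj, hk⟩ := h
  refine ⟨i, j, hij, by simp only; omega, by simp [hi], by simp only [hj]; omega, ?_⟩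
  intro k h1 h2
  simp [hk k h1 h2]

theorem pourable_double {p : ℕ} {a : Fin 3 → ℕ} (h : Pourable p a) :
    Pourable p (fun k => 2 * a k) := by
  obtain ⟨l, s, hl, h0, hs, i, hz⟩ := h
  exact ⟨l, fun t k => 2 * s t k, hl, by simp [h0], fun t ht => step_double (hs t ht),
    i, by simp [hz]⟩

/-- The explicit result of pouring from `j` into `i`. -/
def pour (a : Fin 3 → ℕ) (i j : Fin 3) : Fin 3 → ℕ :=
  fun k => if k = i then 2 * a i else if k = j then a j - a i else a k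

theorem step_pour (a : Fin 3 → ℕ) {i j : Fin 3} (hij : i ≠ j) (h : a i ≤ a j) :
    Step a (pour a i j) := by
  refine ⟨i, j, hij, h, by simp [pour], by simp [pour, hij.symm], ?_⟩
  intro k h1 h2
  simp [pour, h1, h2]

theorem half_case {p m : ℕ} (ih : ∀ a : Fin 3 → ℕ, a 0 + a 1 + a 2 = m → Pourable p a)
    (b : Fin 3 → ℕ) (hb : b 0 + b 1 + b 2 = 2 * m) (h0 : b 0 % 2 = 0) (h1 : b 1 % 2 = 0)
    (h2 : b 2 % 2 = 0) : Pourable p b := by
  have h := pourable_double (ih (fun k => b k / 2) (by omega))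
  have e : (fun k => 2 * (b k / 2)) = b := by
    funext k
    fin_cases k <;> simp <;> omega
  rwa [e] at h

theorem lower_aux (k : ℕ) : ∀ a : Fin 3 → ℕ, a 0 + a 1 + a 2 = 5 * 2 ^ k → Pourable (k + 1) a := by
  induction k with
  | zero =>
    intro a ha
    by_cases h0 : a 0 = 0
    · exact pourable_of_zero 0 h0
    by_cases h1 : a 1 = 0
    · exact pourable_of_zero 1 h1
    by_cases h2 : a 2 = 0
    · exact pourable_of_zero 2 h2
    have : a 0 = a 1 ∨ a 0 = a 2 ∨ a 1 = a 2 := by omega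
    rcases this with h | h | h
    · exact pourable_step (step_pour a (i := 0) (j := 1) (by decide) h.le)
        (pourable_of_zero 1 (by simp [pour, h]))
    · exact pourable_step (step_pour a (i := 0) (j := 2) (by decide) h.le)
        (pourable_of_zero 2 (by simp [pour, h]))
    · exact pourable_step (step_pour a (i := 1) (j := 2) (by decide) h.le)
        (pourable_of_zero 2 (by simp [pour, h]))
  | succ k ih =>
    intro a ha
    have hm : 5 * 2 ^ (k + 1) = 2 * (5 * 2 ^ k) := by ring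
    rw [hm] at ha
    have key0 : ∀ i j : Fin 3, i ≠ j → a i ≤ a j → a i % 2 = 1 → a j % 2 = 1 →
        pour a i j 0 + pour a i j 1 + pour a i j 2 = 2 * (5 * 2 ^ k) ∧ pour a i j 0 % 2 = 0 ∧
          pour a i j 1 % 2 = 0 ∧ pour a i j 2 % 2 = 0 := by
      intro i j hij hle hi hj
      generalize 5 * 2 ^ k = m at ha ⊢
      clear ih hm
      fin_cases i <;> fin_cases j <;> simp at hij hle hi hj <;> simp [pour] <;> omega
    have key : ∀ i j : Fin 3, i ≠ j → a i ≤ a j → a i % 2 = 1 → a j % 2 = 1 →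
        Pourable (k + 1 + 1) a := by
      intro i j hij hle hi hj
      obtain ⟨e0, e1, e2, e3⟩ := key0 i j hij hle hi hj
      exact pourable_step (step_pour a hij hle) (half_case ih _ e0 e1 e2 e3)
    have : (a 0 % 2 = 0 ∧ a 1 % 2 = 0 ∧ a 2 % 2 = 0) ∨ (a 0 % 2 = 1 ∧ a 1 % 2 = 1) ∨
        (a 0 % 2 = 1 ∧ a 2 % 2 = 1) ∨ (a 1 % 2 = 1 ∧ a 2 % 2 = 1) := by omega
    rcases this with ⟨h0, h1, h2⟩ | ⟨h, h'⟩ | ⟨h, h'⟩ | ⟨h, h'⟩
    · exact pourable_mono (half_case ih a ha h0 h1 h2) (Nat.le_succ _)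
    · rcases le_total (a 0) (a 1) with e | e
      · exact key 0 1 (by decide) e h h'
      · exact key 1 0 (by decide) e h' h
    · rcases le_total (a 0) (a 2) with e | e
      · exact key 0 2 (by decide) e h h'
      · exact key 2 0 (by decide) e h' h
    · rcases le_total (a 1) (a 2) with e | e
      · exact key 1 2 (by decide) e h h'
      · exact key 2 1 (by decide) e h' h

/-- The invariant: entries `σ, y, z = 2y + d` with `σ` and `d` small. -/
def Small (T : ℕ) (x y z : ℕ) : Prop :=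
  0 < x ∧ 2 * y ≤ z + 2 * T ∧
    ((x = T ∧ z + 2 ≤ 2 * y + 2 * T) ∨ (2 * x ≤ T ∧ z ≤ 2 * y + 2 * T))

theorem small_moves {T n x y z : ℕ} (hT : 6 * T ≤ n) (hs : x + y + z = n) (h : Small T x y z) :
    0 < x ∧ x < y ∧ y < z ∧ Small (2 * T) (2 * x) (y - x) z ∧ Small (2 * T) (2 * x) y (z - x) ∧
      Small (2 * T) x (z - y) (2 * y) := by
  obtain ⟨h0, h1, ⟨h2, h3⟩ | ⟨h2, h3⟩⟩ := h
  · have a1 : x < y := by omega
    have a2 : y < z := by omega
    refine ⟨h0, a1, a2, ⟨by omega, by omega, Or.inl ⟨by omega, by omega⟩⟩,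
      ⟨by omega, by omega, Or.inl ⟨by omega, by omega⟩⟩,
      ⟨by omega, by omega, Or.inr ⟨by omega, by omega⟩⟩⟩
  · have a1 : x < y := by omega
    have a2 : y < z := by omega
    refine ⟨h0, a1, a2, ⟨by omega, by omega, Or.inr ⟨by omega, by omega⟩⟩,
      ⟨by omega, by omega, Or.inr ⟨by omega, by omega⟩⟩,
      ⟨by omega, by omega, Or.inr ⟨by omega, by omega⟩⟩⟩

def Inv (T n : ℕ) (a : Fin 3 → ℕ) : Prop :=
  ∃ i j k : Fin 3, i ≠ j ∧ i ≠ k ∧ j ≠ k ∧ a i + a j + a k = n ∧ Small T (a i) (a j) (a k)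

theorem fin3_cases : ∀ i j k p : Fin 3, i ≠ j → i ≠ k → j ≠ k → p = i ∨ p = j ∨ p = k := by
  decide

theorem inv_step {T n : ℕ} {a b : Fin 3 → ℕ} (hT : 6 * T ≤ n) (h : Inv T n a) (hs : Step a b) :
    Inv (2 * T) n b ∧ ∀ p, 0 < b p := by
  obtain ⟨p, q, hpq, hle, hp, hq, hr⟩ := hs
  obtain ⟨i, j, k, hij, hik, hjk, hsum, hS⟩ := h
  obtain ⟨h0, h1, h2, A, B, C⟩ := small_moves hT hsum hS
  have pos : ∀ u, 0 < b i → 0 < b j → 0 < b k → 0 < b u := by
    intro u e1 e2 e3
    rcases fin3_cases i j k u hij hik hjk with rfl | rfl | rfl <;> assumption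
  rcases fin3_cases i j k p hij hik hjk with rfl | rfl | rfl <;>
    rcases fin3_cases _ _ _ q hij hik hjk with rfl | rfl | rfl
  · exact absurd rfl hpq
  · have e := hr k hik.symm hjk.symm
    refine ⟨⟨p, q, k, hij, hik, hjk, by omega, by rw [hp, hq, e]; exact A⟩,
      fun u => pos u (by omega) (by omega) (by omega)⟩
  · have e := hr j hij.symm hjk
    refine ⟨⟨p, j, q, hij, hik, hjk, by omega, by rw [hp, hq, e]; exact B⟩,
      fun u => pos u (by omega) (by omega) (by omega)⟩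
  · omega
  · exact absurd rfl hpq
  · have e := hr i hij hik
    refine ⟨⟨i, q, p, hik, hij, hjk.symm, by omega, by rw [hp, hq, e]; exact C⟩,
      fun u => pos u (by omega) (by omega) (by omega)⟩
  · omega
  · omega
  · exact absurd rfl hpq

theorem upper_aux {N n : ℕ} (hN : 1 ≤ N) (hn : 6 * 2 ^ (N - 1) ≤ n) : ¬ AllPourable N n := by
  intro H
  have hpos : 1 ≤ 2 ^ (N - 1) := Nat.one_le_two_pow
  have h6 : 6 ≤ n := by omega
  obtain ⟨y, hy1, hy2⟩ : ∃ y, 3 * y ≤ n + 1 ∧ n ≤ 3 * y + 1 := ⟨(n + 1) / 3, by omega, by omega⟩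
  have hp : ∀ i, 0 < (![1, y, n - 1 - y] : Fin 3 → ℕ) i := by
    intro i
    fin_cases i
    · simp
    · simp; omega
    · simp; omega
  obtain ⟨l, s, hl, h0, hs, i, hz⟩ := H ![1, y, n - 1 - y] hp (by simp; omega)
  have main : ∀ t, t ≤ l → Inv (2 ^ t) n (s t) ∧ ∀ p, 0 < s t p := by
    intro t
    induction t with
    | zero =>
      intro _
      rw [h0]
      refine ⟨⟨0, 1, 2, by decide, by decide, by decide, by simp; omega, ?_⟩, hp⟩
      refine ⟨by simp, by simp; omega, Or.inl ⟨by simp, by simp; omega⟩⟩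
    | succ t ih =>
      intro ht
      have hle : 2 ^ t ≤ 2 ^ (N - 1) := Nat.pow_le_pow_right (by norm_num) (by omega)
      rw [pow_succ, mul_comm]
      exact inv_step (by omega) (ih (by omega)).1 (hs t (by omega))
  have := (main l le_rfl).2 i
  omega

end Pool.Agent.P.MP_4ebd9a_co
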