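import Pool.Agent.P.MP_4ebd9a_co.Words

set_option autoImplicit false

namespace Pool.Agent.P.MP_4ebd9a_co

theorem card_le_fib {α β : Type*} [DecidableEq β] (s : Finset α) (t : Finset β) (f : α → β)
    (M : ℝ) (h : ∀ a ∈ s, f a ∈ t) (hM : ∀ b ∈ t, ((s.filter (fun a => f a = b)).card : ℝ) ≤ M) :
    (s.card : ℝ) ≤ t.card * M := by
  rw [Finset.card_eq_sum_card_fiberwise h, ← nsmul_eq_mul]
  push_cast
  exact Finset.sum_le_card_nsmul _ _ _ hM

theorem two_pow_dvd_shift {a B : ℤ} {t L : ℕ} (h : (2 : ℤ) ^ t ∣ a * B) (hB : ¬ (2 : ℤ) ^ L ∣ B) :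
    (2 : ℤ) ^ t ∣ a * 2 ^ L := by
  have h0 : B ≠ 0 := fun e => hB (e ▸ dvd_zero _)
  obtain ⟨v, b, hb, rfl⟩ := WfDvdMonoid.max_power_factor h0 Int.prime_two.irreducible
  have hv : v ≤ L := by
    by_contra hc
    exact hB ((pow_dvd_pow 2 (by omega)).trans (dvd_mul_right _ _))
  have : (2 : ℤ) ^ t ∣ b * (a * 2 ^ v) := by
    have e : b * (a * 2 ^ v) = a * (2 ^ v * b) := by ring
    rwa [e]
  exact (Int.prime_two.pow_dvd_of_dvd_mul_left t hb this).trans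
    (mul_dvd_mul_left a (pow_dvd_pow 2 hv))

theorem count_bound (L K1 : ℕ) (hK : (L : ℤ) * 8 ^ K1 < 9 ^ K1) (t c : ℕ) (hc : c ≤ t + 1) (B : ℤ)
    (hB : 2 ^ (c + t) ≤ L * |B|) (hd : ¬ (2 : ℤ) ^ L ∣ B) (S : Finset (Fin 3 → ℤ))
    (hS : ∀ l ∈ S, Good (c + t) l ∧ l 1 - l 2 = B) :
    (S.card : ℝ) ≤ (2 * 200 ^ (K1 + L) * 3.06 ^ t) *
      ((8 * L * 2 ^ L + 1) * (2 * 1000 ^ L * 1.29 ^ (t + 1) * L ^ 40)) := by
  classical
  have hsp : ∀ l ∈ S, (2 : ℤ) ^ (c + t) ≤ L * spr l := by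
    intro l hl
    have := abs_le_spr l 1 2
    rw [(hS l hl).2] at this
    exact hB.trans (mul_le_mul_of_nonneg_left this (by positivity))
  have ex : ∀ l ∈ S, ∃ u ν g', u ∈ Adm t (K1 + L) none ∧ l = backL u ν ∧ Good c ν ∧ Ex g' ν ∧
      g' ≤ L ∧ u.length = t ∧ ∀ σ ∈ u, σ.1 ≠ σ.2 := by
    intro l hl
    obtain ⟨g, hg, hex⟩ := exists_ex l L (by rwa [(hS l hl).2])
    have h1 := (good_spr _ _ (hS l hl).1).1
    have h2 := hsp l hl
    have h8 : (0 : ℤ) < 8 ^ K1 := by positivity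
    obtain ⟨u, ν, g', a1, a2, a3, a4, a5, a6, a7⟩ := mem_Adm c t (K1 + L) K1 g none l (hS l hl).1
      hex (by nlinarith) trivial (by omega)
    exact ⟨u, ν, g', a1, a2, a3, a4, by omega, a6, a7⟩
  choose! U V G hU hV hG hE hL hlen hval using ex
  have hM0 : (0 : ℝ) ≤ 2 * 1000 ^ L * 1.29 ^ (t + 1) * L ^ 40 := by positivity
  refine (card_le_fib S (Adm t (K1 + L) none) U
    ((8 * L * 2 ^ L + 1) * (2 * 1000 ^ L * 1.29 ^ (t + 1) * L ^ 40)) hU ?_).trans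
    (mul_le_mul_of_nonneg_right (card_Adm t (K1 + L)).2 (by positivity))
  intro u _
  rcases (S.filter (fun a => U a = u)).eq_empty_or_nonempty with he | ⟨l0, hl0⟩
  · rw [he]; simp only [Finset.card_empty, Nat.cast_zero]; positivity
  obtain ⟨hl0, hu0⟩ := Finset.mem_filter.mp hl0
  have hdet : ∀ l ∈ S, U l = u → (l 0 - l 2 - (l0 0 - l0 2)) * B = 2 ^ t * det2 (V l) (V l0) := by
    intro l hl hu
    have h1 := det2_backL (V l) (V l0) u (by rw [← hu]; exact hval l hl)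
    have e1 : backL u (V l) = l := by rw [← hu]; exact (hV l hl).symm
    have e2 : backL u (V l0) = l0 := by rw [← hu0]; exact (hV l0 hl0).symm
    have e3 : u.length = t := by rw [← hu]; exact hlen l hl
    rw [e1, e2, e3] at h1
    rw [← h1, det2, (hS l hl).2, (hS l0 hl0).2]
    ring
  have hdiv : ∀ l ∈ S, U l = u → (2 : ℤ) ^ t ∣ (l 0 - l 2 - (l0 0 - l0 2)) * 2 ^ L :=
    fun l hl hu => two_pow_dvd_shift (by rw [hdet l hl hu]; exact dvd_mul_right _ _) hd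
  have hbd : ∀ l ∈ S, U l = u → |l 0 - l 2 - (l0 0 - l0 2)| ≤ 4 * L * 2 ^ t := by
    intro l hl hu
    have h1 := congrArg abs (hdet l hl hu)
    rw [abs_mul, abs_mul, abs_of_pos (show (0 : ℤ) < 2 ^ t by positivity)] at h1
    have h2 := abs_det2_le (V l) (V l0)
    have h3 := good_spr _ _ (hG l hl)
    have h4 := good_spr _ _ (hG l0 hl0)
    have h5 : spr (V l) * spr (V l0) ≤ 2 ^ c * 2 ^ c :=
      mul_le_mul h3.2 h4.2 (by omega) (by positivity)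
    have h6 : (2 : ℤ) ^ c ≤ 2 * 2 ^ t := by
      rw [← pow_succ']; exact pow_le_pow_right₀ (by norm_num) hc
    set x := |l 0 - l 2 - (l0 0 - l0 2)| with hx
    have hx0 : 0 ≤ x := abs_nonneg _
    have hP : (0 : ℤ) < 2 ^ c * 2 ^ t := by positivity
    rw [pow_add] at hB
    have h7 : x * (2 ^ c * 2 ^ t) ≤ (4 * L * 2 ^ t) * (2 ^ c * 2 ^ t) := by
      calc x * (2 ^ c * 2 ^ t) ≤ x * (L * |B|) := by gcongr
        _ = L * (2 ^ t * |det2 (V l) (V l0)|) := by rw [← h1]; ring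
        _ ≤ L * (2 ^ t * (2 * (2 ^ c * 2 ^ c))) := by gcongr; linarith
        _ ≤ L * (2 ^ t * (2 * (2 ^ c * (2 * 2 ^ t)))) := by gcongr
        _ = _ := by ring
    exact le_of_mul_le_mul_right h7 hP
  have hcard : ((Finset.Icc (-(4 * L * 2 ^ L : ℤ)) (4 * L * 2 ^ L)).card : ℝ) =
      8 * L * 2 ^ L + 1 := by
    have : ((Finset.Icc (-(4 * L * 2 ^ L : ℤ)) (4 * L * 2 ^ L)).card : ℤ) = 8 * L * 2 ^ L + 1 := by
      rw [Int.card_Icc_of_le]
      · ring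
      · have : (0 : ℤ) ≤ 4 * L * 2 ^ L := by positivity
        linarith
    exact_mod_cast this
  rw [← hcard]
  refine card_le_fib _ _ (fun l => (l 0 - l 2 - (l0 0 - l0 2)) * 2 ^ L / 2 ^ t) _ ?_ ?_
  · intro l hl
    obtain ⟨hl, hu⟩ := Finset.mem_filter.mp hl
    obtain ⟨j, hj⟩ := hdiv l hl hu
    have hP : (0 : ℤ) < 2 ^ t := by positivity
    rw [hj, Int.mul_ediv_cancel_left _ hP.ne', Finset.mem_Icc, ← abs_le]
    have h1 := congrArg abs hj
    rw [abs_mul, abs_mul, abs_of_pos hP, abs_of_pos (show (0 : ℤ) < 2 ^ L by positivity)] at h1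
    have h2 := hbd l hl hu
    have h3 : 2 ^ t * |j| ≤ 2 ^ t * (4 * L * 2 ^ L) := by
      rw [← h1]
      calc |l 0 - l 2 - (l0 0 - l0 2)| * 2 ^ L ≤ (4 * L * 2 ^ t : ℤ) * 2 ^ L := by gcongr
        _ = _ := by ring
    exact le_of_mul_le_mul_left h3 hP
  intro j _
  set F := (S.filter (fun a => U a = u)).filter
    (fun l => (l 0 - l 2 - (l0 0 - l0 2)) * 2 ^ L / 2 ^ t = j) with hF
  rcases F.eq_empty_or_nonempty with he | ⟨l1, hl1⟩
  · rw [he]; simpa using hM0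
  have hmem : ∀ l ∈ F, l ∈ S ∧ U l = u ∧ (l 0 - l 2 - (l0 0 - l0 2)) * 2 ^ L = 2 ^ t * j := by
    intro l hl
    obtain ⟨h1, h2⟩ := Finset.mem_filter.mp hl
    obtain ⟨h1, h3⟩ := Finset.mem_filter.mp h1
    exact ⟨h1, h3, by rw [← h2, Int.mul_ediv_cancel' (hdiv l h1 h3)]⟩
  have hshift : ∀ l ∈ F, l = fun k => l1 k + (l 2 - l1 2) := by
    intro l hl
    obtain ⟨a1, -, a3⟩ := hmem l hl
    obtain ⟨b1, -, b3⟩ := hmem l1 hl1
    have e := mul_right_cancel₀ (show (2 : ℤ) ^ L ≠ 0 by positivity) (a3.trans b3.symm)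
    have a4 := (hS l a1).2
    have b4 := (hS l1 b1).2
    funext k
    fin_cases k <;> simp <;> omega
  obtain ⟨b1, b2, -⟩ := hmem l1 hl1
  have hinj : Set.InjOn (fun l : Fin 3 → ℤ => l 2 - l1 2) F := by
    intro a ha b hb h
    simp only at h
    rw [hshift a ha, hshift b hb, h]
  rw [← Finset.card_image_of_injOn hinj]
  refine (mult_bound c (G l1) (V l1) (hE l1 b1) _ ?_).trans ?_
  · intro μ hμ
    obtain ⟨l, hl, rfl⟩ := Finset.mem_image.mp hμ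
    obtain ⟨a1, a2, -⟩ := hmem l hl
    have e1 : backL u (V l) = l := by rw [← a2]; exact (hV l a1).symm
    have e2 : backL u (V l1) = l1 := by rw [← b2]; exact (hV l1 b1).symm
    have := backL_shift u (by rw [← a2]; exact hval l a1) (V l1) (V l) (l 2 - l1 2)
      (by rw [e1, e2]; exact (hshift l hl).symm)
    rw [← this]
    exact hG l a1
  · have h1 := (good_spr _ _ (hG l1 b1)).1
    have h2 := spr_backL (V l1) (U l1)
    rw [← hV l1 b1, hlen l1 b1] at h2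
    have h3 := hsp l1 b1
    have h4 : (2 : ℤ) ^ t * 2 ^ c ≤ 2 ^ t * (L * spr (V l1)) := by
      calc (2 : ℤ) ^ t * 2 ^ c = 2 ^ (c + t) := by ring
        _ ≤ L * (2 ^ t * spr (V l1)) := h3.trans (by gcongr)
        _ = _ := by ring
    have h5 := le_of_mul_le_mul_left h4 (by positivity)
    have h6 : (2 : ℝ) ^ c ≤ L * (spr (V l1) : ℝ) := by exact_mod_cast h5
    have h7 : (0 : ℝ) < spr (V l1) := by exact_mod_cast (show (0 : ℤ) < spr (V l1) by omega)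
    have h8 : (2 : ℝ) ^ c / (spr (V l1) : ℝ) ≤ L := by rwa [div_le_iff₀ h7]
    have h9 := wa_le (V l1)
    have h10 := le_wa (V l1)
    have h11 := hL l1 b1
    calc 2 * 1000 ^ G l1 * wa (V l1) * 1.29 ^ c * ((2 : ℝ) ^ c / (spr (V l1) : ℝ)) ^ 40
        ≤ 2 * 1000 ^ L * 1 * 1.29 ^ (t + 1) * (L : ℝ) ^ 40 := by
          gcongr <;> norm_num
      _ = _ := by ring

theorem count_small (L E : ℕ) : ∃ c0 : ℕ, ∀ c, c0 ≤ c → ∀ B : ℤ, 2 ^ c ≤ L * |B| →
    ¬ (2 : ℤ) ^ L ∣ B → ∀ S : Finset (Fin 3 → ℤ), (∀ l ∈ S, Good c l ∧ l 1 - l 2 = B) →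
    (E : ℝ) * S.card ≤ 2 ^ c := by
  obtain ⟨K1, hK⟩ : ∃ K1 : ℕ, (L : ℤ) * 8 ^ K1 < 9 ^ K1 := by
    obtain ⟨K1, h⟩ := pow_unbounded_of_one_lt (L : ℝ) (show (1 : ℝ) < 9 / 8 by norm_num)
    refine ⟨K1, ?_⟩
    rw [div_pow, lt_div_iff₀ (by positivity)] at h
    exact_mod_cast h
  set C : ℝ := E * ((2 * 200 ^ (K1 + L)) * ((8 * L * 2 ^ L + 1) * (2 * 1000 ^ L * 1.29 * L ^ 40)))
    + 1 with hC
  have hC0 : 0 < C := by positivity
  obtain ⟨t0, ht0⟩ := exists_pow_lt_of_lt_one (show 0 < 1 / C by positivity)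
    (show (3.06 * 1.29 / 4 : ℝ) < 1 by norm_num)
  refine ⟨2 * t0, fun c hc B hB hd S hS => ?_⟩
  obtain ⟨t, c', rfl, h1, h2, h3⟩ : ∃ t c', c = c' + t ∧ c' ≤ t + 1 ∧ t ≤ c' ∧ t0 ≤ t :=
    ⟨c / 2, c - c / 2, by omega, by omega, by omega, by omega⟩
  have := count_bound L K1 hK t c' h1 B hB hd S hS
  have h4 : (3.06 * 1.29 / 4 : ℝ) ^ t ≤ (3.06 * 1.29 / 4) ^ t0 :=
    pow_le_pow_of_le_one (by norm_num) (by norm_num) h3
  have h5 : (3.06 * 1.29 : ℝ) ^ t * C ≤ 4 ^ t := by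
    have := h4.trans ht0.le
    rw [div_pow, div_le_div_iff₀ (by positivity) hC0] at this
    linarith
  have h6 : (4 : ℝ) ^ t ≤ 2 ^ (c' + t) := by
    rw [show (4 : ℝ) = 2 ^ 2 by norm_num, ← pow_mul]
    exact pow_le_pow_right₀ (by norm_num) (by omega)
  calc (E : ℝ) * S.card ≤ E * ((2 * 200 ^ (K1 + L) * 3.06 ^ t) *
      ((8 * L * 2 ^ L + 1) * (2 * 1000 ^ L * 1.29 ^ (t + 1) * L ^ 40))) := by gcongr
    _ = (3.06 * 1.29 : ℝ) ^ t * (C - 1) := by rw [hC, mul_pow]; ring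
    _ ≤ (3.06 * 1.29 : ℝ) ^ t * C := by gcongr; linarith
    _ ≤ _ := h5.trans h6

theorem count_div (C : ℕ) : ∃ q0 : ℕ, ∀ q : ℕ, q0 ≤ q → Odd q → ∀ S : Finset (Fin 3 → ℤ),
    (∀ l ∈ S, ∃ c : ℕ, 2 ^ c ≤ C * q ∧ Good c l ∧ (q : ℤ) ∣ l 1 - l 2 ∧ l 1 ≠ l 2) →
    C * S.card < q := by
  classical
  obtain ⟨c0, hc0⟩ := count_small C (C * C * ((C + 1) * (2 * C + 1)) + 1)
  refine ⟨2 ^ c0, fun q hq hodd S hS => ?_⟩
  have hq0 : 0 < q := hodd.pos
  choose! c h1 h2 h3 h4 using hS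
  have hge : ∀ l ∈ S, (q : ℤ) ≤ |l 1 - l 2| := fun l hl =>
    Int.le_of_dvd (abs_pos.mpr (sub_ne_zero.mpr (h4 l hl))) ((dvd_abs _ _).mpr (h3 l hl))
  have hle : ∀ l ∈ S, |l 1 - l 2| ≤ 2 ^ c l := fun l hl =>
    (abs_le_spr l 1 2).trans (good_spr _ _ (h2 l hl)).2
  have hq2 : ∀ l ∈ S, q ≤ 2 ^ c l := fun l hl => by exact_mod_cast (hge l hl).trans (hle l hl)
  have hb : ∀ l ∈ S, |(l 1 - l 2) / q| ≤ C := by
    intro l hl
    obtain ⟨b, hb⟩ := h3 l hl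
    have hq' : (0 : ℤ) < q := by exact_mod_cast hq0
    rw [hb, Int.mul_ediv_cancel_left _ hq'.ne']
    have a1 := hle l hl
    rw [hb, abs_mul, abs_of_pos hq'] at a1
    have a2 : (2 : ℤ) ^ c l ≤ C * q := by exact_mod_cast h1 l hl
    exact le_of_mul_le_mul_left (a := (q : ℤ)) (by linarith) hq'
  set E : ℕ := C * C * ((C + 1) * (2 * C + 1)) + 1 with hE
  have hE0 : (0 : ℝ) < E := by positivity
  have key := card_le_fib S
    (Finset.Icc (Nat.log 2 q) (Nat.log 2 q + C) ×ˢ Finset.Icc (-(C : ℤ)) C)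
    (fun l => (c l, (l 1 - l 2) / q)) (C * q / E) ?_ ?_
  · have hcard : (((Finset.Icc (Nat.log 2 q) (Nat.log 2 q + C) ×ˢ
        Finset.Icc (-(C : ℤ)) C).card : ℕ) : ℝ) = (C + 1) * (2 * C + 1) := by
      rw [Finset.card_product, Nat.card_Icc]
      have e1 : Nat.log 2 q + C + 1 - Nat.log 2 q = C + 1 := by omega
      have e2 : (Finset.Icc (-(C : ℤ)) C).card = 2 * C + 1 := by
        rw [Int.card_Icc]; omega
      rw [e1, e2]; push_cast; ring
    rw [hcard, ← mul_div_assoc, le_div_iff₀ hE0] at key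
    have hqr : (0 : ℝ) < q := by exact_mod_cast hq0
    have e : (E : ℝ) = C * C * ((C + 1) * (2 * C + 1)) + 1 := by rw [hE]; push_cast; ring
    have : ((C : ℝ) * S.card) * E < q * E := by
      calc ((C : ℝ) * S.card) * E = C * (S.card * E) := by ring
        _ ≤ C * ((C + 1) * (2 * C + 1) * (C * q)) := by gcongr
        _ = q * (E - 1) := by rw [e]; ring
        _ < q * E := by nlinarith
    exact_mod_cast lt_of_mul_lt_mul_right this hE0.le
  · intro l hl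
    rw [Finset.mem_product, Finset.mem_Icc, Finset.mem_Icc, ← abs_le]
    refine ⟨⟨?_, ?_⟩, hb l hl⟩
    · have := (Nat.pow_log_le_self 2 hq0.ne').trans (hq2 l hl)
      exact (Nat.pow_le_pow_iff_right (by norm_num)).mp this
    · have a1 : q < 2 ^ (Nat.log 2 q + 1) := Nat.lt_pow_succ_log_self (by norm_num) q
      have a2 : C < 2 ^ C := Nat.lt_two_pow_self
      have a3 : 2 ^ c l < 2 ^ (Nat.log 2 q + C + 1) := by
        calc 2 ^ c l ≤ C * q := h1 l hl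
          _ < 2 ^ C * 2 ^ (Nat.log 2 q + 1) := Nat.mul_lt_mul'' a2 a1
          _ = _ := by ring
      have := (Nat.pow_lt_pow_iff_right (by norm_num)).mp a3
      simp only
      omega
  · rintro ⟨c1, b⟩ -
    rcases (S.filter (fun l => (c l, (l 1 - l 2) / q) = (c1, b))).eq_empty_or_nonempty with
      he | ⟨l0, hl0⟩
    · rw [he]; simp only [Finset.card_empty, Nat.cast_zero]; positivity
    have hmem : ∀ l ∈ S.filter (fun l => (c l, (l 1 - l 2) / q) = (c1, b)),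
        l ∈ S ∧ c l = c1 ∧ l 1 - l 2 = q * b ∧ |b| ≤ C := by
      intro l hl
      obtain ⟨a1, a2⟩ := Finset.mem_filter.mp hl
      obtain ⟨a3, a4⟩ := Prod.mk.inj a2
      exact ⟨a1, a3, by rw [← a4, Int.mul_ediv_cancel' (h3 l a1)], by rw [← a4]; exact hb l a1⟩
    obtain ⟨b1, b2, b3, b4⟩ := hmem l0 hl0
    have hc1 : (2 : ℤ) ^ c1 ≤ C * q := by rw [← b2]; exact_mod_cast h1 l0 b1
    have := hc0 c1 ?_ (q * b) ?_ ?_ _ (fun l hl => by
      obtain ⟨a1, a2, a3, -⟩ := hmem l hl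
      exact ⟨by rw [← a2]; exact h2 l a1, a3⟩)
    · rw [le_div_iff₀ hE0, mul_comm]
      refine this.trans ?_
      exact_mod_cast hc1
    · have := hq.trans (hq2 l0 b1)
      rw [b2] at this
      exact (Nat.pow_le_pow_iff_right (by norm_num)).mp this
    · rw [← b3]
      exact hc1.trans (mul_le_mul_of_nonneg_left (hge l0 b1) (by positivity))
    · intro hdv
      have hq2' : ¬ (2 : ℤ) ∣ q := by
        obtain ⟨k, rfl⟩ := hodd
        push_cast; omega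
      have a1 := Int.prime_two.pow_dvd_of_dvd_mul_left C hq2' hdv
      have a2 : b ≠ 0 := by
        rintro rfl
        exact h4 l0 b1 (by linarith)
      have a3 := Int.le_of_dvd (abs_pos.mpr a2) ((dvd_abs _ _).mpr a1)
      have a4 : (C : ℤ) < 2 ^ C := by exact_mod_cast (Nat.lt_two_pow_self : C < 2 ^ C)
      linarith

end Pool.Agent.P.MP_4ebd9a_co
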