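import Mathlib

set_option autoImplicit false

namespace Pool.Agent.P.MP_4ebd9a_co

/-- One pouring step from state `a` to state `b`. -/
def Step (a b : Fin 3 → ℕ) : Prop :=
  ∃ i j : Fin 3, i ≠ j ∧ a i ≤ a j ∧ b i = 2 * a i ∧ b j = a j - a i ∧
    ∀ k : Fin 3, k ≠ i → k ≠ j → b k = a k

/-- Some sequence of at most `p` pouring steps from `a` reaches a state with a zero entry. -/
def Pourable (p : ℕ) (a : Fin 3 → ℕ) : Prop :=
  ∃ (l : ℕ) (s : ℕ → Fin 3 → ℕ), l ≤ p ∧ s 0 = a ∧ (∀ t, t < l → Step (s t) (s (t + 1))) ∧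
    ∃ i, s l i = 0

/-- Every state of three positive integers with total `n` is `N`-pourable. -/
def AllPourable (N n : ℕ) : Prop :=
  ∀ a : Fin 3 → ℕ, (∀ i, 0 < a i) → a 0 + a 1 + a 2 = n → Pourable N a

end Pool.Agent.P.MP_4ebd9a_co
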