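import Pool.Agent.P.MP_4ebd9a_co.Count

set_option autoImplicit false

namespace Pool.Agent.P.MP_4ebd9a_co

/-- Data extracted from a relation at a state whose first entry is `q * 2 ^ k`. -/
theorem rel_data {q n1 k c : ℕ} {π : ℕ} (hπ : π.Prime) (hπ2 : π ≠ 2) (hπn : π ∣ n1) (hq : 0 < q)
    {a : Fin 3 → ℕ} (h0 : a 0 = q * 2 ^ k) (hs : a 0 + a 1 + a 2 = q * n1)
    (hc : IsCoprime (q : ℤ) (a 1)) {v : Fin 3 → ℤ} (hg : Good c v)
    (hv : v 0 * a 0 + v 1 * a 1 + v 2 * a 2 = 0) :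
    (q : ℤ) ∣ v 1 - v 2 ∧ v 1 ≠ v 2 ∧ q ≤ 2 ^ c ∧
      (v 1 - v 2) * a 1 = -((v 0 - v 2) * (q * 2 ^ k) + v 2 * (q * n1)) := by
  have h0' : (a 0 : ℤ) = q * 2 ^ k := by exact_mod_cast h0
  have hs' : (a 0 : ℤ) + a 1 + a 2 = q * n1 := by exact_mod_cast hs
  have e : (v 1 - v 2) * a 1 = -((v 0 - v 2) * (q * 2 ^ k) + v 2 * (q * n1)) := by
    rw [← hs', ← h0']; linarith
  have d : (q : ℤ) ∣ v 1 - v 2 := by
    refine hc.dvd_of_dvd_mul_right ?_
    rw [e]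
    exact ⟨-((v 0 - v 2) * 2 ^ k + v 2 * n1), by ring⟩
  have hp : Prime (π : ℤ) := Nat.prime_iff_prime_int.mp hπ
  have hp2 : ¬ (π : ℤ) ∣ 2 := by
    intro h
    have : π ∣ 2 := by exact_mod_cast h
    exact hπ2 ((Nat.prime_dvd_prime_iff_eq hπ Nat.prime_two).mp this)
  have ne : v 1 ≠ v 2 := by
    intro h
    refine good_odd π hp hp2 c v hg (all_of_base 2 ?_)
    have hq' : (q : ℤ) ≠ 0 := by exact_mod_cast hq.ne'
    have e2 : (v 0 - v 2) * 2 ^ k = -(v 2 * n1) := by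
      apply mul_left_cancel₀ hq'
      rw [h] at e
      linarith
    have e3 : (π : ℤ) ∣ (v 0 - v 2) * 2 ^ k := by
      rw [e2]
      exact dvd_neg.mpr (Dvd.dvd.mul_left (by exact_mod_cast hπn) _)
    have e4 : (π : ℤ) ∣ v 0 - v 2 :=
      (hp.dvd_or_dvd e3).resolve_right (fun h => hp2 (hp.dvd_of_dvd_pow h))
    intro j
    fin_cases j
    · exact e4
    · simp [h]
    · simp
  refine ⟨d, ne, ?_, e⟩
  have h1 := Int.le_of_dvd (abs_pos.mpr (sub_ne_zero.mpr ne)) ((dvd_abs _ _).mpr d)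
  exact_mod_cast h1.trans ((abs_le_spr v 1 2).trans (good_spr _ _ hg).2)

/-- Invariant of the first phase. -/
def Ph (q n y t : ℕ) (a : Fin 3 → ℕ) : Prop :=
  ∃ k d, k + d = t ∧ a 0 = q * 2 ^ k ∧ a 0 + a 1 + a 2 = n ∧ (q : ℤ) ∣ a 1 - 2 ^ d * y ∧
    (5 * (q * 2 ^ t) < 2 * n →
      (a 2 ≤ 2 * a 1 + 2 * (q * 2 ^ t) ∧ 2 * a 1 ≤ a 2 + 2 * (q * 2 ^ t)) ∨
      (a 1 ≤ 2 * a 2 + 2 * (q * 2 ^ t) ∧ 2 * a 2 ≤ a 1 + 2 * (q * 2 ^ t)))

theorem ph_step {q n y t : ℕ} (hn : q ∣ n) {a b : Fin 3 → ℕ} (h : Ph q n y t a)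
    (h1 : a 0 < a 1) (h2 : a 0 < a 2) (hs : Step a b) : Ph q n y (t + 1) b := by
  obtain ⟨k, d, hkd, e0, es, ed, er⟩ := h
  obtain ⟨i, j, hij, hle, hi, hj, hk⟩ := hs
  have hle0 : a 0 ≤ q * 2 ^ t := by
    rw [e0]; exact Nat.mul_le_mul_left _ (Nat.pow_le_pow_right (by norm_num) (by omega))
  have ep : q * 2 ^ (t + 1) = 2 * (q * 2 ^ t) := by ring
  have ek : q * 2 ^ (k + 1) = 2 * (q * 2 ^ k) := by ring
  have d0 : (q : ℤ) ∣ a 0 := by rw [e0]; push_cast; exact dvd_mul_right _ _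
  have dn : (q : ℤ) ∣ (a 0 : ℤ) + a 1 + a 2 := by rw [← es] at hn; exact_mod_cast hn
  have k0 := hk 0
  have k1 := hk 1
  have k2 := hk 2
  unfold Ph
  rw [ep]
  generalize q * 2 ^ t = σ at *
  fin_cases i <;> fin_cases j <;> simp at hij hle hi hj k0 k1 k2
  · refine ⟨k + 1, d, by omega, by omega, by omega, ?_, by omega⟩
    have : (b 1 : ℤ) - 2 ^ d * y = (a 1 - 2 ^ d * y) - a 0 := by
      rw [hj]; push_cast [hle]; ring
    rw [this]; exact dvd_sub ed d0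
  · refine ⟨k + 1, d, by omega, by omega, by omega, by rw [k1]; exact ed, by omega⟩
  · omega
  · refine ⟨k, d + 1, by omega, by omega, by omega, ?_, by omega⟩
    have : (b 1 : ℤ) - 2 ^ (d + 1) * y = 2 * (a 1 - 2 ^ d * y) := by
      rw [hi]; push_cast; ring
    rw [this]; exact Dvd.dvd.mul_left ed 2
  · omega
  · refine ⟨k, d + 1, by omega, by omega, by omega, ?_, by omega⟩
    have : (b 1 : ℤ) - 2 ^ (d + 1) * y =
        2 * (a 1 - 2 ^ d * y) - ((a 0 : ℤ) + a 1 + a 2) + a 0 := by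
      rw [hj]; push_cast [hle]; ring
    rw [this]; exact dvd_add (dvd_sub (Dvd.dvd.mul_left ed 2) dn) d0

theorem cop_of_dvd {q y d x : ℕ} (hq : Odd q) (hy : q.Coprime y) (h : (q : ℤ) ∣ x - 2 ^ d * y) :
    IsCoprime (q : ℤ) x := by
  obtain ⟨w, hw⟩ := h
  have e : (x : ℤ) = 2 ^ d * y + q * w := by linarith
  rw [e]
  refine IsCoprime.add_mul_left_right ?_ w
  have : q.Coprime (2 ^ d * y) :=
    Nat.Coprime.mul_right (Nat.Coprime.pow_right d (Nat.coprime_two_right.mpr hq)) hy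
  exact_mod_cast Nat.isCoprime_iff_coprime.mpr this

/-- What a successful sequence from `(q, y, n - q - y)` with `y` near `n / 3` leaves behind. -/
theorem extract {q n1 N y π : ℕ} (hπ : π.Prime) (hπ2 : π ≠ 2) (hπn : π ∣ n1) (hq : Odd q)
    (hy : q.Coprime y) (hN : 5 * 2 ^ N < 2 * (q * n1)) (hy1 : q + y ≤ q * n1)
    (hy2 : q * n1 ≤ 3 * y + 3 * q) (hy3 : 3 * y ≤ q * n1 + q)
    (hp : Pourable N ![q, y, q * n1 - q - y]) :
    ∃ (v : Fin 3 → ℤ) (c k d x : ℕ), 2 ^ c ≤ 3 * q ∧ Good c v ∧ (q : ℤ) ∣ v 1 - v 2 ∧ v 1 ≠ v 2 ∧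
      d < 3 ∧ n1 < 20 * 2 ^ k ∧ 5 * 2 ^ k < 2 * n1 ∧ (q : ℤ) ∣ x - 2 ^ d * y ∧
      (v 1 - v 2) * x = -((v 0 - v 2) * (q * 2 ^ k) + v 2 * (q * n1)) := by
  classical
  obtain ⟨l, s, hl, h0, hs, i, hz⟩ := hp
  have hq0 := hq.pos
  have phase : ∀ t, t ≤ l → (∀ t', t' < t → ¬ (s t' 1 ≤ s t' 0 ∨ s t' 2 ≤ s t' 0)) →
      Ph q (q * n1) y t (s t) := by
    intro t
    induction t with
    | zero =>
      intro _ _
      rw [h0]
      refine ⟨0, 0, rfl, by simp, by simp; omega, by simp, fun _ => Or.inl ?_⟩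
      simp; omega
    | succ t ih =>
      intro ht hE
      have := hE t (Nat.lt_succ_self t)
      exact ph_step (dvd_mul_right _ _) (ih (by omega) (fun t' h => hE t' (by omega)))
        (by omega) (by omega) (hs t (by omega))
  have hex : ∃ t, t ≤ l ∧ (s t 1 ≤ s t 0 ∨ s t 2 ≤ s t 0) := by
    by_contra hc
    push Not at hc
    obtain ⟨k, d, -, e0, -⟩ := phase l le_rfl (fun t' h => by have := hc t' h.le; omega)
    have h1 := hc l le_rfl
    have h2 : 0 < s l 0 := by rw [e0]; positivity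
    fin_cases i <;> simp at hz <;> omega
  obtain ⟨hT, hE⟩ := Nat.find_spec hex
  set T := Nat.find hex with hTdef
  obtain ⟨k, d, hkd, e0, es, ed, er⟩ := phase T hT (fun t' h hh =>
    Nat.find_min hex h ⟨by omega, hh⟩)
  obtain ⟨v, hg, hv⟩ := path_rel s l hs i hz (l - T) T (by omega)
  obtain ⟨a1, a2, a3, a4⟩ := rel_data hπ hπ2 hπn hq0 e0 es (cop_of_dvd hq hy ed) hg hv
  have b1 : 2 ^ (l - T) * 2 ^ T ≤ 2 ^ N := by
    rw [← pow_add]; exact Nat.pow_le_pow_right (by norm_num) (by omega)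
  have b2 : q * 2 ^ T ≤ 2 ^ N := (Nat.mul_le_mul_right _ a3).trans b1
  have b3 := er (by omega)
  have b4 : q * 2 ^ T = s T 0 * 2 ^ d := by rw [e0, ← hkd]; ring
  have b5 : s T 0 ≤ q * 2 ^ T := by
    rw [b4]; exact Nat.le_mul_of_pos_right _ (by positivity)
  have b6 : q * n1 < 20 * s T 0 := by omega
  have b7 : q * n1 ≤ 6 * (q * 2 ^ T) := by omega
  refine ⟨v, l - T, k, d, s T 1, ?_, hg, a1, a2, ?_, ?_, ?_, ed, a4⟩
  · have : 2 ^ (l - T) * 2 ^ T ≤ 3 * q * 2 ^ T := by rw [mul_assoc]; omega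
    exact Nat.le_of_mul_le_mul_right this (by positivity)
  · by_contra hd
    have : 2 ^ 3 ≤ 2 ^ d := Nat.pow_le_pow_right (by norm_num) (by omega)
    have : s T 0 * 2 ^ 3 ≤ s T 0 * 2 ^ d := Nat.mul_le_mul_left _ this
    omega
  · rw [e0] at b6
    exact Nat.lt_of_mul_lt_mul_left (a := q) (by linarith)
  · rw [e0] at b5
    exact Nat.lt_of_mul_lt_mul_left (a := q) (by linarith)

theorem inj_window {q y0 a b d : ℕ} (hq : Odd q) (ha : a ∈ Finset.Ico y0 (y0 + q))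
    (hb : b ∈ Finset.Ico y0 (y0 + q)) {x : ℤ} (h1 : (q : ℤ) ∣ x - 2 ^ d * a)
    (h2 : (q : ℤ) ∣ x - 2 ^ d * b) : a = b := by
  have h3 : (q : ℤ) ∣ 2 ^ d * ((b : ℤ) - a) := by
    have := dvd_sub h1 h2
    have e : x - 2 ^ d * a - (x - 2 ^ d * b) = 2 ^ d * ((b : ℤ) - a) := by ring
    rwa [e] at this
  have hc : IsCoprime (q : ℤ) (2 ^ d) := by
    have : q.Coprime (2 ^ d) := Nat.Coprime.pow_right d (Nat.coprime_two_right.mpr hq)
    exact_mod_cast Nat.isCoprime_iff_coprime.mpr this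
  have h4 := hc.dvd_of_dvd_mul_left h3
  rw [Finset.mem_Ico] at ha hb
  have := Int.eq_zero_of_abs_lt_dvd h4 (by rw [abs_lt]; omega)
  omega

theorem hard_of_divisor : ∃ q0 : ℕ, ∀ q n1 N π : ℕ, q0 ≤ q → Odd q → q ≤ 2 * q.totient →
    π.Prime → π ≠ 2 → π ∣ n1 → 5 * 2 ^ N < 2 * (q * n1) → ¬ AllPourable N (q * n1) := by
  classical
  obtain ⟨q0, hq0⟩ := count_div 18
  refine ⟨q0 + 2, fun q n1 N π hq hodd hφ hπ hπ2 hπn hN H => ?_⟩
  have hn1 : 3 ≤ n1 := by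
    have h0 : 0 < n1 := by
      rcases Nat.eq_zero_or_pos n1 with rfl | h
      · simp at hN
      · exact h
    have := Nat.le_of_dvd h0 hπn
    have := hπ.two_le
    omega
  have hn3 : q * 3 ≤ q * n1 := Nat.mul_le_mul_left _ hn1
  set y0 := (q * n1 - 2 * q) / 3 with hy0
  set Y := (Finset.Ico y0 (y0 + q)).filter (fun y => q.Coprime y) with hY
  have hYc : Y.card = q.totient := Nat.filter_coprime_Ico_eq_totient q y0
  have ex : ∀ y ∈ Y, ∃ (v : Fin 3 → ℤ) (c k d x : ℕ), 2 ^ c ≤ 3 * q ∧ Good c v ∧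
      (q : ℤ) ∣ v 1 - v 2 ∧ v 1 ≠ v 2 ∧ d < 3 ∧ n1 < 20 * 2 ^ k ∧ 5 * 2 ^ k < 2 * n1 ∧
      (q : ℤ) ∣ x - 2 ^ d * y ∧
      (v 1 - v 2) * x = -((v 0 - v 2) * (q * 2 ^ k) + v 2 * (q * n1)) := by
    intro y hy
    obtain ⟨h1, h2⟩ := Finset.mem_filter.mp hy
    rw [Finset.mem_Ico] at h1
    have hyp : y ≠ 0 := by
      rintro rfl
      rw [Nat.coprime_zero_right] at h2
      omega
    refine extract hπ hπ2 hπn hodd h2 hN (by omega) (by omega) (by omega) (H _ ?_ (by simp; omega))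
    intro i
    fin_cases i <;> simp <;> omega
  choose! v c k d x h1 h2 h3 h4 h5 h6 h7 h8 h9 using ex
  have hk0 : ∃ k, n1 < 20 * 2 ^ k := ⟨n1, by have : n1 < 2 ^ n1 := Nat.lt_two_pow_self; omega⟩
  have hS := hq0 q (by omega) hodd (Y.image v) (by
    intro l hl
    obtain ⟨y, hy, rfl⟩ := Finset.mem_image.mp hl
    exact ⟨c y, by have := h1 y hy; omega, h2 y hy, h3 y hy, h4 y hy⟩)
  have hcard : Y.card ≤ ((Y.image v) ×ˢ (Finset.range 3 ×ˢ
      Finset.Ico (Nat.find hk0) (Nat.find hk0 + 3))).card := by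
    refine Finset.card_le_card_of_injOn (fun y => (v y, d y, k y)) ?_ ?_
    · intro y hy
      have hy' : y ∈ Y := hy
      simp only [Finset.coe_product, Set.mem_prod, Finset.mem_coe, Finset.mem_range,
        Finset.mem_Ico]
      refine ⟨Finset.mem_image_of_mem _ hy', h5 y hy', Nat.find_min' hk0 (h6 y hy'), ?_⟩
      by_contra hc
      have a1 : 2 ^ (Nat.find hk0 + 3) ≤ 2 ^ k y := Nat.pow_le_pow_right (by norm_num) (by omega)
      have a2 := Nat.find_spec hk0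
      have a3 := h7 y hy'
      rw [pow_add] at a1
      omega
    · intro a ha b hb hab
      have ha' : a ∈ Y := ha
      have hb' : b ∈ Y := hb
      simp only [Prod.mk.injEq] at hab
      obtain ⟨e1, e2, e3⟩ := hab
      have a1 := h9 a ha'
      have a2 := h9 b hb'
      rw [← e1, ← e3, ← a1] at a2
      have a3 := mul_left_cancel₀ (sub_ne_zero.mpr (h4 a ha')) a2
      have a4 := h8 b hb'
      rw [a3, ← e2] at a4
      exact inj_window hodd (Finset.mem_filter.mp ha').1 (Finset.mem_filter.mp hb').1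
        (h8 a ha') a4
  rw [Finset.card_product, Finset.card_product, Finset.card_range, Nat.card_Ico] at hcard
  have e : Nat.find hk0 + 3 - Nat.find hk0 = 3 := by omega
  rw [e] at hcard
  omega

theorem structure_thm : ∃ M : ℕ, ∀ N n : ℕ, 5 * 2 ^ N < 2 * n → AllPourable N n →
    ∃ p v : ℕ, n = p * 2 ^ v ∧ (p.Prime ∨ p < M) := by
  obtain ⟨q0, hq0⟩ := hard_of_divisor
  refine ⟨q0.factorial ^ q0 + 1, fun N n hN H => ?_⟩
  have hn0 : n ≠ 0 := by rintro rfl; simp at hN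
  obtain ⟨v, m, hm, rfl⟩ := Nat.exists_eq_two_pow_mul_odd hn0
  refine ⟨m, v, mul_comm _ _, ?_⟩
  by_contra hc
  push Not at hc
  obtain ⟨hnp, hM⟩ := hc
  have hm0 := hm.pos
  have key : ∀ p e w π : ℕ, p.Prime → m = p ^ (e + 1) * w → q0 ≤ p ^ (e + 1) → π.Prime → π ∣ w →
      False := by
    intro p e w π hp hmw hq hπ hπw
    have o1 : Odd (p ^ (e + 1)) := Odd.of_dvd_nat hm ⟨w, hmw⟩
    have o2 : Odd π := Odd.of_dvd_nat hm (hmw ▸ Dvd.dvd.mul_left hπw _)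
    have e1 : 2 ^ v * m = p ^ (e + 1) * (w * 2 ^ v) := by rw [hmw]; ring
    rw [e1] at hN H
    refine hq0 _ _ N π hq o1 ?_ hπ (by rintro rfl; exact absurd o2 (by decide))
      (Dvd.dvd.mul_right hπw _) hN H
    rw [Nat.totient_prime_pow_succ hp, pow_succ]
    have := hp.two_le
    obtain ⟨r, rfl⟩ : ∃ r, p = r + 2 := ⟨p - 2, by omega⟩
    have e2 : r + 2 - 1 = r + 1 := by omega
    rw [e2]
    have : 0 < (r + 2) ^ e := by positivity
    nlinarith
  have hdvd : m ∣ q0.factorial ^ q0 := by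
    rw [← Nat.factorization_prime_le_iff_dvd hm0.ne' (by positivity)]
    intro p hp
    by_cases hpm : p ∣ m
    swap
    · rw [Nat.factorization_eq_zero_of_not_dvd hpm]; exact Nat.zero_le _
    by_cases hpq : q0 ≤ p
    · exfalso
      obtain ⟨w, hw⟩ := hpm
      have hw1 : w ≠ 1 := by rintro rfl; exact hnp (by simpa [hw] using hp)
      exact key p 0 w w.minFac hp (by simpa using hw) (by simpa using hpq)
        (Nat.minFac_prime hw1) (Nat.minFac_dvd w)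
    by_contra hlt
    push Not at hlt hpq
    have h1 : 1 ≤ q0.factorial.factorization p :=
      (hp.dvd_iff_one_le_factorization (Nat.factorial_ne_zero q0)).mp
        (Nat.dvd_factorial hp.pos hpq.le)
    rw [Nat.factorization_pow] at hlt
    simp only [Finsupp.smul_apply, smul_eq_mul] at hlt
    have h2 : q0 + 1 ≤ m.factorization p := by nlinarith
    obtain ⟨w, hw⟩ := (hp.pow_dvd_iff_le_factorization hm0.ne').mpr h2
    obtain ⟨e, rfl⟩ : ∃ e, q0 = e + 1 := ⟨q0 - 1, by omega⟩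
    exact key p e (p * w) p hp (by rw [hw]; ring) (Nat.lt_pow_self hp.one_lt).le hp
      (dvd_mul_right _ _)
  have := Nat.le_of_dvd (by positivity) hdvd
  omega

end Pool.Agent.P.MP_4ebd9a_co
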