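import Pool.Agent.P.MP_4ebd9a_co.Pos

set_option autoImplicit false

namespace Pool.Agent.P.MP_4ebd9a_co

/-- Smallest gap between two entries. -/
def mg (l : Fin 3 → ℤ) : ℤ := min |l 0 - l 1| (min |l 0 - l 2| |l 1 - l 2|)

/-- Shape weight. -/
noncomputable def wa (l : Fin 3 → ℤ) : ℝ :=
  if 8 * mg l ≤ spr l then 0.63 else if 7 * spr l ≤ 16 * mg l then 1 else 0.79

/-- The six moves. -/
def syms : Finset (Fin 3 × Fin 3) := Finset.univ.filter (fun σ => σ.1 ≠ σ.2)

theorem mem_syms {σ : Fin 3 × Fin 3} : σ ∈ syms ↔ σ.1 ≠ σ.2 := by simp [syms]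

theorem card_syms : syms.card = 6 := by decide

theorem wa_le (l : Fin 3 → ℤ) : wa l ≤ 1 := by
  unfold wa; split_ifs <;> norm_num

theorem le_wa (l : Fin 3 → ℤ) : 0.63 ≤ wa l := by
  unfold wa; split_ifs <;> norm_num

/-- Spread of three integers. -/
def s3 (x y z : ℤ) : ℤ := max x (max y z) - min x (min y z)

/-- Smallest gap of three integers. -/
def m3 (x y z : ℤ) : ℤ := min |x - y| (min |x - z| |y - z|)

theorem sm_sorted {x y z : ℤ} (h1 : x ≤ y) (h2 : y ≤ z) :
    (s3 x y z = z - x ∧ s3 x z y = z - x ∧ s3 y x z = z - x ∧ s3 y z x = z - x ∧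
      s3 z x y = z - x ∧ s3 z y x = z - x) ∧
    (m3 x y z = min (y - x) (z - y) ∧ m3 x z y = min (y - x) (z - y) ∧
      m3 y x z = min (y - x) (z - y) ∧ m3 y z x = min (y - x) (z - y) ∧
      m3 z x y = min (y - x) (z - y) ∧ m3 z y x = min (y - x) (z - y)) := by
  simp only [s3, m3, abs_eq_max_neg]
  refine ⟨⟨?_, ?_, ?_, ?_, ?_, ?_⟩, ?_, ?_, ?_, ?_, ?_, ?_⟩ <;> omega

theorem sm_perm (l : Fin 3 → ℤ) {i j k : Fin 3} (h1 : i ≠ j) (h2 : k ≠ i) (h3 : k ≠ j) :
    spr l = s3 (l i) (l j) (l k) ∧ mg l = m3 (l i) (l j) (l k) := by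
  have e : spr l = s3 (l 0) (l 1) (l 2) ∧ mg l = m3 (l 0) (l 1) (l 2) := ⟨rfl, rfl⟩
  rw [e.1, e.2]
  rcases le_total (l 0) (l 1) with a | a <;> rcases le_total (l 0) (l 2) with b | b <;>
    rcases le_total (l 1) (l 2) with c | c <;>
    first
    | (have := sm_sorted a c
       fin_cases i <;> fin_cases j <;> fin_cases k <;> simp at h1 h2 h3 <;> simp [this])
    | (have := sm_sorted b c
       fin_cases i <;> fin_cases j <;> fin_cases k <;> simp at h1 h2 h3 <;> simp [this])
    | (have := sm_sorted a b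
       fin_cases i <;> fin_cases j <;> fin_cases k <;> simp at h1 h2 h3 <;> simp [this])
    | (have := sm_sorted c b
       fin_cases i <;> fin_cases j <;> fin_cases k <;> simp at h1 h2 h3 <;> simp [this])
    | (have := sm_sorted b a
       fin_cases i <;> fin_cases j <;> fin_cases k <;> simp at h1 h2 h3 <;> simp [this])
    | (have := sm_sorted c a
       fin_cases i <;> fin_cases j <;> fin_cases k <;> simp at h1 h2 h3 <;> simp [this])

theorem both_core {a b m c : ℤ} (h : a + b = 2 * m) (h1 : 1 ≤ s3 a b c)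
    (c1 : 16 * s3 m b c ≤ 9 * s3 a b c) (c2 : 16 * s3 a m c ≤ 9 * s3 a b c) :
    7 * s3 a b c ≤ 16 * m3 a b c ∧ 8 * m3 m b c ≤ s3 m b c ∧ 8 * m3 a m c ≤ s3 a m c := by
  rcases le_total a b with hab | hab
  · have e1 : a ≤ m := by omega
    have e2 : m ≤ b := by omega
    rcases le_total c m with u | u
    · rcases le_total c a with v | v
      · simp only [sm_sorted v hab, sm_sorted u e2, sm_sorted v e1] at h1 c1 c2 ⊢; omega
      · simp only [sm_sorted v (u.trans e2), sm_sorted u e2, sm_sorted v u] at h1 c1 c2 ⊢; omega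
    · rcases le_total c b with v | v
      · simp only [sm_sorted (e1.trans u) v, sm_sorted u v, sm_sorted e1 u] at h1 c1 c2 ⊢; omega
      · simp only [sm_sorted hab v, sm_sorted e2 v, sm_sorted e1 u] at h1 c1 c2 ⊢; omega
  · have e1 : b ≤ m := by omega
    have e2 : m ≤ a := by omega
    rcases le_total c m with u | u
    · rcases le_total c b with v | v
      · simp only [sm_sorted v hab, sm_sorted u e2, sm_sorted v e1] at h1 c1 c2 ⊢; omega
      · simp only [sm_sorted v (u.trans e2), sm_sorted u e2, sm_sorted v u] at h1 c1 c2 ⊢; omega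
    · rcases le_total c a with v | v
      · simp only [sm_sorted (e1.trans u) v, sm_sorted u v, sm_sorted e1 u] at h1 c1 c2 ⊢; omega
      · simp only [sm_sorted hab v, sm_sorted e2 v, sm_sorted e1 u] at h1 c1 c2 ⊢; omega

theorem near_core {a b m c : ℤ} (h : a + b = 2 * m) (h1 : 8 * m3 a b c ≤ s3 a b c)
    (c1 : 16 * s3 m b c ≤ 9 * s3 a b c) : 4 * m3 m b c ≤ s3 m b c := by
  rcases le_total a b with hab | hab
  · have e1 : a ≤ m := by omega
    have e2 : m ≤ b := by omega
    rcases le_total c m with u | u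
    · rcases le_total c a with v | v
      · simp only [sm_sorted v hab, sm_sorted u e2] at h1 c1 ⊢; omega
      · simp only [sm_sorted v (u.trans e2), sm_sorted u e2] at h1 c1 ⊢; omega
    · rcases le_total c b with v | v
      · simp only [sm_sorted (e1.trans u) v, sm_sorted u v] at h1 c1 ⊢; omega
      · simp only [sm_sorted hab v, sm_sorted e2 v] at h1 c1 ⊢; omega
  · have e1 : b ≤ m := by omega
    have e2 : m ≤ a := by omega
    rcases le_total c m with u | u
    · rcases le_total c b with v | v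
      · simp only [sm_sorted v hab, sm_sorted v e1] at h1 c1 ⊢; omega
      · simp only [sm_sorted v (u.trans e2), sm_sorted v u] at h1 c1 ⊢; omega
    · rcases le_total c a with v | v
      · simp only [sm_sorted (e1.trans u) v, sm_sorted e1 u] at h1 c1 ⊢; omega
      · simp only [sm_sorted hab v, sm_sorted e1 u] at h1 c1 ⊢; omega

theorem exists_third (i j : Fin 3) : ∃ k : Fin 3, k ≠ i ∧ k ≠ j := by
  revert i j; decide

theorem both_cheap {σ : Fin 3 × Fin 3} (hσ : σ.1 ≠ σ.2) {ν ρ : Fin 3 → ℤ}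
    (h : back σ ν = back σ.swap ρ) (h1 : 1 ≤ spr (back σ ν))
    (c1 : 16 * spr ν ≤ 9 * spr (back σ ν)) (c2 : 16 * spr ρ ≤ 9 * spr (back σ ν)) :
    7 * spr (back σ ν) ≤ 16 * mg (back σ ν) ∧ 8 * mg ν ≤ spr ν ∧ 8 * mg ρ ≤ spr ρ := by
  obtain ⟨i, j⟩ := σ
  obtain ⟨k, hi, hj⟩ := exists_third i j
  simp only at hσ
  have e0 := congrFun h i
  have e1 := congrFun h j
  have e2 := congrFun h k
  have p1 := sm_perm (back (i, j) ν) hσ hi hj
  have p2 := sm_perm ν hσ hi hj
  have p3 := sm_perm ρ hσ hi hj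
  rw [p1.1] at h1 c1 c2
  rw [p2.1] at c1
  rw [p3.1] at c2
  rw [p1.1, p1.2, p2.1, p2.2, p3.1, p3.2]
  simp only [back, Prod.swap, if_true, if_neg hσ, if_neg hσ.symm, if_neg hi, if_neg hj]
    at e0 e1 e2 h1 c1 c2 ⊢
  have f1 : ρ j = ν i := by omega
  rw [f1, ← e0, ← e2] at c2 ⊢
  exact both_core (by ring) h1 c1 c2

theorem near_cheap {σ : Fin 3 × Fin 3} (hσ : σ.1 ≠ σ.2) {ν : Fin 3 → ℤ}
    (h : 8 * mg (back σ ν) ≤ spr (back σ ν)) (c1 : 16 * spr ν ≤ 9 * spr (back σ ν)) :
    4 * mg ν ≤ spr ν := by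
  obtain ⟨i, j⟩ := σ
  obtain ⟨k, hi, hj⟩ := exists_third i j
  simp only at hσ
  have p1 := sm_perm (back (i, j) ν) hσ hi hj
  have p2 := sm_perm ν hσ hi hj
  rw [p1.1] at h c1
  rw [p1.2] at h
  rw [p2.1] at c1
  rw [p2.1, p2.2]
  simp only [back, if_true, if_neg hσ.symm, if_neg hi] at h c1 ⊢
  exact near_core (by ring) h c1

/-- Weight of the move from `l` to `ν`. -/
noncomputable def wr (l ν : Fin 3 → ℤ) : ℝ := if 16 * spr ν ≤ 9 * spr l then wa ν else 0.01

theorem wr_pair {σ : Fin 3 × Fin 3} (hσ : σ.1 ≠ σ.2) {ν ρ : Fin 3 → ℤ}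
    (h : back σ ν = back σ.swap ρ) (h1 : 1 ≤ spr (back σ ν)) :
    wr (back σ ν) ν + wr (back σ ν) ρ + 0.006 ≤ 1.29 * wa (back σ ν) := by
  have hν : 1 ≤ spr ν := by have := spr_back_le σ ν; omega
  have hρ : 1 ≤ spr ρ := by have := spr_back_le σ.swap ρ; rw [← h] at this; omega
  have one : ∀ (τ : Fin 3 × Fin 3) (κ : Fin 3 → ℤ), τ.1 ≠ τ.2 → 1 ≤ spr κ →
      16 * spr κ ≤ 9 * spr (back τ κ) → wa κ + 0.01 + 0.006 ≤ 1.29 * wa (back τ κ) := by
    intro τ κ hτ hκ hc
    by_cases hn : 8 * mg (back τ κ) ≤ spr (back τ κ)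
    · have := near_cheap hτ hn hc
      have e : wa (back τ κ) = 0.63 := by simp [wa, hn]
      have e2 : wa κ ≤ 0.79 := by
        unfold wa
        split_ifs with a b
        · norm_num
        · omega
        · norm_num
      rw [e]; linarith
    · have e : 0.79 ≤ wa (back τ κ) := by
        unfold wa
        rw [if_neg hn]
        split_ifs <;> norm_num
      have := wa_le κ
      linarith
  unfold wr
  split_ifs with c1 c2 c2
  · obtain ⟨a, b, c⟩ := both_cheap hσ h h1 c1 c2
    have hn : ¬ 8 * mg (back σ ν) ≤ spr (back σ ν) := by omega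
    have e : wa (back σ ν) = 1 := by simp [wa, hn, a]
    have e1 : wa ν = 0.63 := by simp [wa, b]
    have e2 : wa ρ = 0.63 := by simp [wa, c]
    rw [e, e1, e2]; norm_num
  · exact one σ ν hσ hν c1
  · have := one σ.swap ρ (by simpa using hσ.symm) hρ (by rwa [← h])
    rw [← h] at this
    linarith
  · have := le_wa (back σ ν)
    linarith

/-- Forward action of a move (meaningful when the pair has even difference). -/
def fwd (σ : Fin 3 × Fin 3) (l : Fin 3 → ℤ) : Fin 3 → ℤ :=
  fun k => if k = σ.1 then (l σ.1 + l σ.2) / 2 else l k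

theorem back_fwd {σ : Fin 3 × Fin 3} (hσ : σ.1 ≠ σ.2) {l : Fin 3 → ℤ}
    (h : (2 : ℤ) ∣ l σ.1 - l σ.2) : back σ (fwd σ l) = l := by
  funext k
  by_cases hk : k = σ.1
  · rw [hk, back_fst]
    simp only [fwd, if_true, if_neg hσ.symm]
    omega
  · rw [back_ne _ _ hk]; simp [fwd, hk]

theorem fwd_of_back {σ : Fin 3 × Fin 3} (hσ : σ.1 ≠ σ.2) {l ν : Fin 3 → ℤ} {μ : ℤ}
    (h : (fun k => l k + μ) = back σ ν) :
    (2 : ℤ) ∣ l σ.1 - l σ.2 ∧ ν = fun k => fwd σ l k + μ := by
  have e1 := congrFun h σ.1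
  have e2 := congrFun h σ.2
  rw [back_fst] at e1
  rw [back_ne _ _ hσ.symm] at e2
  refine ⟨by omega, ?_⟩
  funext k
  by_cases hk : k = σ.1
  · rw [hk]; simp only [fwd, if_true]; omega
  · have := congrFun h k
    rw [back_ne _ _ hk] at this
    simp only [fwd, if_neg hk]
    exact this.symm

theorem mult_bound : ∀ (c g : ℕ) (l : Fin 3 → ℤ), Ex g l → ∀ S : Finset ℤ,
    (∀ μ ∈ S, Good c (fun k => l k + μ)) →
    (S.card : ℝ) ≤ 2 * 1000 ^ g * wa l * 1.29 ^ c * ((2 : ℝ) ^ c / (spr l : ℝ)) ^ 40 := by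
  classical
  intro c
  induction c with
  | zero =>
    intro g l _ S hS
    rcases S.eq_empty_or_nonempty with rfl | ⟨μ, hμ⟩
    · have := le_wa l
      simp only [Finset.card_empty, Nat.cast_zero]
      have h40 : (0 : ℝ) ≤ ((2 : ℝ) ^ 0 / (spr l : ℝ)) ^ 40 := Even.pow_nonneg (by decide) _
      positivity
    · have h1 := good_spr 0 _ (hS μ hμ)
      rw [spr_add] at h1
      have e : spr l = 1 := by omega
      have hc : S.card ≤ 1 := by
        rw [Finset.card_le_one]
        intro a ha b hb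
        obtain ⟨i, hi⟩ := hS a ha
        obtain ⟨j, hj⟩ := hS b hb
        have a0 := congrFun hi 0
        have a1 := congrFun hi 1
        have a2 := congrFun hi 2
        have b0 := congrFun hj 0
        have b1 := congrFun hj 1
        have b2 := congrFun hj 2
        fin_cases i <;> fin_cases j <;> simp at a0 a1 a2 b0 b1 b2 <;> omega
      have hc' : (S.card : ℝ) ≤ 1 := by exact_mod_cast hc
      have := le_wa l
      have h3 : (1 : ℝ) ≤ 1000 ^ g := one_le_pow₀ (by norm_num)
      rw [e]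
      norm_num
      nlinarith
  | succ c ih =>
    intro g l hl S hS
    rcases S.eq_empty_or_nonempty with rfl | ⟨μ0, hμ0⟩
    · have := le_wa l
      simp only [Finset.card_empty, Nat.cast_zero]
      have h40 : (0 : ℝ) ≤ ((2 : ℝ) ^ (c + 1) / (spr l : ℝ)) ^ 40 := Even.pow_nonneg (by decide) _
      positivity
    have h1 : 1 ≤ spr l := by
      have := (good_spr _ _ (hS μ0 hμ0)).1
      rwa [spr_add] at this
    have h1r : (1 : ℝ) ≤ spr l := by exact_mod_cast h1
    set X : ℝ := ((2 : ℝ) ^ (c + 1) / (spr l : ℝ)) ^ 40 with hX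
    have hX0 : 0 ≤ X := Even.pow_nonneg (by decide) _
    set Z : ℝ := 2 * 1000 ^ g * 1.29 ^ c * X with hZ
    have hZ0 : 0 ≤ Z := by positivity
    let T : Fin 3 × Fin 3 → Finset ℤ := fun σ =>
      S.filter (fun μ => ∃ ν, (fun k => l k + μ) = back σ ν ∧ Good c ν)
    let w : Fin 3 × Fin 3 → ℝ := fun σ => if Reg g l σ then wr l (fwd σ l) else 0.001
    have hwr0 : ∀ ν, 0 ≤ wr l ν := by
      intro ν
      have := le_wa ν
      unfold wr; split_ifs <;> linarith
    have hT : ∀ σ ∈ syms, ((T σ).card : ℝ) ≤ Z * w σ := by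
      intro σ hσ
      rw [mem_syms] at hσ
      rcases (T σ).eq_empty_or_nonempty with he | ⟨μ1, hμ1⟩
      · rw [he]
        have : 0 ≤ w σ := by
          simp only [w]; split_ifs
          · exact hwr0 _
          · norm_num
        simp only [Finset.card_empty, Nat.cast_zero]
        positivity
      obtain ⟨ν1, hν1, -⟩ := (Finset.mem_filter.mp hμ1).2
      have hev := (fwd_of_back hσ hν1).1
      have hb := back_fwd hσ hev
      have hG : ∀ μ ∈ T σ, Good c (fun k => fwd σ l k + μ) := by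
        intro μ hμ
        obtain ⟨ν, hν, hg⟩ := (Finset.mem_filter.mp hμ).2
        rw [← (fwd_of_back hσ hν).2]; exact hg
      have hs : spr l ≤ 2 * spr (fwd σ l) := by
        have := spr_back_le σ (fwd σ l); rwa [hb] at this
      have hsr : (spr l : ℝ) ≤ 2 * (spr (fwd σ l) : ℝ) := by exact_mod_cast hs
      have hp : (0 : ℝ) < (spr (fwd σ l) : ℝ) := by linarith
      have hY : ((2 : ℝ) ^ c / (spr (fwd σ l) : ℝ)) ^ 40 ≤ X := by
        refine pow_le_pow_left₀ (by positivity) ?_ _
        rw [div_le_div_iff₀ hp (by linarith), pow_succ]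
        have : (0 : ℝ) < 2 ^ c := by positivity
        nlinarith
      by_cases hr : Reg g l σ
      · have hex : Ex g (fwd σ l) := ex_reg hσ (by rwa [hb]) (by rwa [hb])
        have := ih g _ hex _ hG
        refine this.trans ?_
        simp only [w, if_pos hr, wr]
        split_ifs with hc
        · have h0 := le_wa (fwd σ l)
          calc 2 * 1000 ^ g * wa (fwd σ l) * 1.29 ^ c * ((2 : ℝ) ^ c / (spr (fwd σ l) : ℝ)) ^ 40
              ≤ 2 * 1000 ^ g * wa (fwd σ l) * 1.29 ^ c * X := by gcongr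
            _ = Z * wa (fwd σ l) := by rw [hZ]; ring
        · have hc' : (9 : ℝ) * spr l ≤ 16 * (spr (fwd σ l) : ℝ) := by
            have : 9 * spr l ≤ 16 * spr (fwd σ l) := by omega
            exact_mod_cast this
          have hY2 : ((2 : ℝ) ^ c / (spr (fwd σ l) : ℝ)) ^ 40 ≤ (8 / 9) ^ 40 * X := by
            rw [hX, ← mul_pow]
            refine pow_le_pow_left₀ (by positivity) ?_ _
            rw [← mul_div_assoc, div_le_div_iff₀ hp (by linarith), pow_succ]
            have : (0 : ℝ) < 2 ^ c := by positivity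
            nlinarith
          have h89 : ((8 : ℝ) / 9) ^ 40 ≤ 0.01 := by norm_num
          have h0 := le_wa (fwd σ l)
          have h00 := wa_le (fwd σ l)
          calc 2 * 1000 ^ g * wa (fwd σ l) * 1.29 ^ c * ((2 : ℝ) ^ c / (spr (fwd σ l) : ℝ)) ^ 40
              ≤ 2 * 1000 ^ g * 1 * 1.29 ^ c * (0.01 * X) := by
                gcongr
                exact hY2.trans (by gcongr)
            _ = Z * 0.01 := by rw [hZ]; ring
      · obtain ⟨g', rfl, hex⟩ := ex_spec (ν := fwd σ l) hσ (by rwa [hb]) (by rwa [hb])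
        have := ih g' _ hex _ hG
        refine this.trans ?_
        simp only [w, if_neg hr]
        have h0 := le_wa (fwd σ l)
        have h00 := wa_le (fwd σ l)
        calc 2 * 1000 ^ g' * wa (fwd σ l) * 1.29 ^ c * ((2 : ℝ) ^ c / (spr (fwd σ l) : ℝ)) ^ 40
            ≤ 2 * 1000 ^ g' * 1 * 1.29 ^ c * X := by gcongr
          _ = Z * 0.001 := by rw [hZ]; ring
    have hcov : S ⊆ syms.biUnion T := by
      intro μ hμ
      obtain ⟨σ, ν, hσ, h, hg⟩ := hS μ hμ
      exact Finset.mem_biUnion.mpr ⟨σ, mem_syms.mpr hσ, Finset.mem_filter.mpr ⟨hμ, ν, h, hg⟩⟩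
    have hsum : ∑ σ ∈ syms, w σ ≤ 1.29 * wa l := by
      rw [← Finset.sum_filter_add_sum_filter_not syms (fun σ => Reg g l σ)]
      have a2 : ∑ σ ∈ syms.filter (fun σ => ¬ Reg g l σ), w σ ≤ 0.006 := by
        have : ∀ σ ∈ syms.filter (fun σ => ¬ Reg g l σ), w σ ≤ 0.001 := by
          intro σ hσ
          simp only [w, if_neg (Finset.mem_filter.mp hσ).2, le_refl]
        refine (Finset.sum_le_card_nsmul _ _ _ this).trans ?_
        have hc : ((syms.filter (fun σ => ¬ Reg g l σ)).card : ℝ) ≤ 6 := by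
          have := Finset.card_filter_le syms (fun σ => ¬ Reg g l σ)
          rw [card_syms] at this
          exact_mod_cast this
        rw [nsmul_eq_mul]; linarith
      rcases (syms.filter (fun σ => Reg g l σ)).eq_empty_or_nonempty with he | ⟨σ, hσ⟩
      · rw [he, Finset.sum_empty]
        have := le_wa l
        linarith
      · obtain ⟨hσ, hr⟩ := Finset.mem_filter.mp hσ
        rw [mem_syms] at hσ
        have hσ' : σ.swap.1 ≠ σ.swap.2 := by simpa using hσ.symm
        have hr' : Reg g l σ.swap := by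
          simp only [Reg, Prod.fst_swap, Prod.snd_swap] at hr ⊢
          simpa using dvd_neg.mpr hr
        have ev : ∀ τ, Reg g l τ → (2 : ℤ) ∣ l τ.1 - l τ.2 := fun τ h =>
          (dvd_pow_self 2 (Nat.succ_ne_zero g)).trans h
        have hb := back_fwd hσ (ev _ hr)
        have hb' := back_fwd hσ' (ev _ hr')
        have key := wr_pair hσ (ν := fwd σ l) (ρ := fwd σ.swap l) (by rw [hb, hb']) (by rwa [hb])
        rw [hb] at key
        have hsub : syms.filter (fun σ => Reg g l σ) ⊆ {σ, σ.swap} := by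
          intro τ hτ
          obtain ⟨h1, h2⟩ := Finset.mem_filter.mp hτ
          simpa using reg_unique hl hσ (mem_syms.mp h1) hr h2
        have hne : σ ≠ σ.swap := fun h => hσ (by
          have := congrArg Prod.fst h
          simpa using this)
        have a1 : ∑ τ ∈ syms.filter (fun σ => Reg g l σ), w τ ≤ w σ + w σ.swap := by
          rw [← Finset.sum_pair hne]
          refine Finset.sum_le_sum_of_subset_of_nonneg hsub ?_
          intro τ _ _
          simp only [w]; split_ifs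
          · exact hwr0 _
          · norm_num
        simp only [w, if_pos hr, if_pos hr'] at a1 a2 ⊢
        linarith
    calc (S.card : ℝ) ≤ ((syms.biUnion T).card : ℝ) := by exact_mod_cast Finset.card_le_card hcov
      _ ≤ ∑ σ ∈ syms, ((T σ).card : ℝ) := by exact_mod_cast Finset.card_biUnion_le
      _ ≤ ∑ σ ∈ syms, Z * w σ := Finset.sum_le_sum hT
      _ = Z * ∑ σ ∈ syms, w σ := by rw [Finset.mul_sum]
      _ ≤ Z * (1.29 * wa l) := by gcongr
      _ = _ := by rw [hZ]; ring

end Pool.Agent.P.MP_4ebd9a_co
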