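import Pool.Agent.P.MP_4ebd9a_co.Defs

set_option autoImplicit false

namespace Pool.Agent.P.MP_4ebd9a_co

/-- Backward action of the move `σ = (i, j)` on relation vectors. -/
def back (σ : Fin 3 × Fin 3) (ν : Fin 3 → ℤ) : Fin 3 → ℤ :=
  fun k => if k = σ.1 then 2 * ν σ.1 - ν σ.2 else ν k

/-- Relation vectors obtained from a coordinate vector by `c` backward moves. -/
def Good : ℕ → (Fin 3 → ℤ) → Prop
  | 0, l => ∃ i : Fin 3, l = fun k => if k = i then 1 else 0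
  | c + 1, l => ∃ (σ : Fin 3 × Fin 3) (ν : Fin 3 → ℤ), σ.1 ≠ σ.2 ∧ l = back σ ν ∧ Good c ν

/-- Largest minus smallest entry. -/
def spr (l : Fin 3 → ℤ) : ℤ := max (l 0) (max (l 1) (l 2)) - min (l 0) (min (l 1) (l 2))

theorem back_fst (σ : Fin 3 × Fin 3) (ν : Fin 3 → ℤ) : back σ ν σ.1 = 2 * ν σ.1 - ν σ.2 := by
  simp [back]

theorem back_ne (σ : Fin 3 × Fin 3) (ν : Fin 3 → ℤ) {k : Fin 3} (h : k ≠ σ.1) :
    back σ ν k = ν k := by
  simp [back, h]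

theorem spr_back_le (σ : Fin 3 × Fin 3) (ν : Fin 3 → ℤ) : spr (back σ ν) ≤ 2 * spr ν := by
  obtain ⟨i, j⟩ := σ
  fin_cases i <;> fin_cases j <;> simp [spr, back] <;> omega

theorem spr_le_back (σ : Fin 3 × Fin 3) (ν : Fin 3 → ℤ) : spr ν ≤ spr (back σ ν) := by
  obtain ⟨i, j⟩ := σ
  fin_cases i <;> fin_cases j <;> simp [spr, back] <;> omega

theorem abs_le_spr (l : Fin 3 → ℤ) (i j : Fin 3) : |l i - l j| ≤ spr l := by
  rw [abs_le]
  fin_cases i <;> fin_cases j <;> simp [spr] <;> omega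

theorem spr_add (l : Fin 3 → ℤ) (μ : ℤ) : spr (fun k => l k + μ) = spr l := by
  simp only [spr]; omega

theorem good_spr : ∀ (c : ℕ) (l : Fin 3 → ℤ), Good c l → 1 ≤ spr l ∧ spr l ≤ 2 ^ c
  | 0, l, ⟨i, h⟩ => by
    subst h
    fin_cases i <;> simp [spr]
  | c + 1, l, ⟨σ, ν, _, h, hg⟩ => by
    have := good_spr c ν hg
    have h1 := spr_back_le σ ν
    have h2 := spr_le_back σ ν
    subst h
    rw [pow_succ]
    omega

theorem good_odd (π : ℤ) (hπ : Prime π) (h2 : ¬ π ∣ 2) :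
    ∀ (c : ℕ) (l : Fin 3 → ℤ), Good c l → (∀ i j, π ∣ l i - l j) → False
  | 0, l, ⟨i, h⟩, hd => by
    obtain ⟨j, hj⟩ : ∃ j : Fin 3, j ≠ i := exists_ne i
    have := hd i j
    subst h
    simp [hj] at this
    exact hπ.not_dvd_one this
  | c + 1, l, ⟨σ, ν, hσ, h, hg⟩, hd => by
    refine good_odd π hπ h2 c ν hg ?_
    have key : ∀ k, π ∣ ν k - ν σ.2 := by
      intro k
      by_cases hk : k = σ.1
      · have := hd σ.1 σ.2
        rw [h, back_fst, back_ne σ ν hσ.symm] at this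
        have e : 2 * ν σ.1 - ν σ.2 - ν σ.2 = 2 * (ν σ.1 - ν σ.2) := by ring
        rw [e] at this
        rw [hk]
        exact (hπ.dvd_or_dvd this).resolve_left h2
      · have := hd k σ.2
        rwa [h, back_ne σ ν hk, back_ne σ ν hσ.symm] at this
    intro i j
    have := dvd_sub (key i) (key j)
    simpa using this

theorem step_rel {a b : Fin 3 → ℕ} (h : Step a b) (ν : Fin 3 → ℤ) :
    ∃ σ : Fin 3 × Fin 3, σ.1 ≠ σ.2 ∧
      back σ ν 0 * a 0 + back σ ν 1 * a 1 + back σ ν 2 * a 2 =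
        ν 0 * b 0 + ν 1 * b 1 + ν 2 * b 2 := by
  obtain ⟨i, j, hij, hle, hi, hj, hk⟩ := h
  refine ⟨(i, j), hij, ?_⟩
  have hi' : (b i : ℤ) = 2 * a i := by rw [hi]; push_cast; ring
  have hj' : (b j : ℤ) = a j - a i := by rw [hj]; push_cast [hle]; ring
  have h0 := hk 0
  have h1 := hk 1
  have h2 := hk 2
  fin_cases i <;> fin_cases j <;> simp at hij h0 h1 h2 hi' hj' <;>
    simp [back, hi', hj', h0, h1, h2] <;> ring

theorem path_rel (s : ℕ → Fin 3 → ℕ) (l : ℕ) (hs : ∀ t, t < l → Step (s t) (s (t + 1)))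
    (i : Fin 3) (hz : s l i = 0) : ∀ c T, T + c = l → ∃ v : Fin 3 → ℤ, Good c v ∧
      v 0 * s T 0 + v 1 * s T 1 + v 2 * s T 2 = 0 := by
  intro c
  induction c with
  | zero =>
    intro T hT
    obtain rfl : T = l := by omega
    refine ⟨_, ⟨i, rfl⟩, ?_⟩
    fin_cases i <;> simp at hz <;> simp [hz]
  | succ c ih =>
    intro T hT
    obtain ⟨ν, hg, hν⟩ := ih (T + 1) (by omega)
    obtain ⟨σ, hσ, h⟩ := step_rel (hs T (by omega)) ν
    exact ⟨back σ ν, ⟨σ, ν, hσ, rfl, hg⟩, by rw [h, hν]⟩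

/-- All differences of `l` are divisible by `2 ^ g`, not all by `2 ^ (g + 1)`. -/
def Ex (g : ℕ) (l : Fin 3 → ℤ) : Prop :=
  (∀ i j, (2 : ℤ) ^ g ∣ l i - l j) ∧ ¬ ∀ i j, (2 : ℤ) ^ (g + 1) ∣ l i - l j

/-- The pair of `σ` has difference divisible by `2 ^ (g + 1)`. -/
def Reg (g : ℕ) (l : Fin 3 → ℤ) (σ : Fin 3 × Fin 3) : Prop := (2 : ℤ) ^ (g + 1) ∣ l σ.1 - l σ.2

theorem all_of_base {D : ℤ} {l : Fin 3 → ℤ} (j : Fin 3) (h : ∀ k, D ∣ l k - l j) :
    ∀ a b, D ∣ l a - l b := by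
  intro a b
  simpa using dvd_sub (h a) (h b)

theorem exists_ex (l : Fin 3 → ℤ) (β : ℕ) (h : ¬ (2 : ℤ) ^ β ∣ l 1 - l 2) :
    ∃ g, g < β ∧ Ex g l := by
  classical
  have hex : ∃ g, ¬ ∀ i j, (2 : ℤ) ^ g ∣ l i - l j := ⟨β, fun H => h (H 1 2)⟩
  have hle : Nat.find hex ≤ β := Nat.find_min' hex (fun H => h (H 1 2))
  have hpos : Nat.find hex ≠ 0 := by
    intro h0
    have := Nat.find_spec hex
    rw [h0] at this
    exact this (fun i j => by simp)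
  obtain ⟨g, hg⟩ := Nat.exists_eq_succ_of_ne_zero hpos
  refine ⟨g, by omega, ?_, ?_⟩
  · have := Nat.find_min hex (m := g) (by omega)
    exact not_not.mp this
  · have := Nat.find_spec hex
    rwa [hg] at this

theorem reg_unique {g : ℕ} {l : Fin 3 → ℤ} (h : Ex g l) {σ τ : Fin 3 × Fin 3} (hσ : σ.1 ≠ σ.2)
    (hτ : τ.1 ≠ τ.2) (h1 : Reg g l σ) (h2 : Reg g l τ) : τ = σ ∨ τ = σ.swap := by
  by_contra hc
  apply h.2
  obtain ⟨i, j⟩ := σ
  obtain ⟨a, b⟩ := τ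
  simp only [Reg] at h1 h2
  generalize (2 : ℤ) ^ (g + 1) = D at h1 h2 ⊢
  have h1' := (dvd_neg.mpr h1)
  have h2' := (dvd_neg.mpr h2)
  have s1 := dvd_add h1 h2
  have s2 := dvd_sub h1 h2
  have s3 := dvd_neg.mpr s1
  have s4 := dvd_neg.mpr s2
  refine all_of_base 0 ?_
  intro k
  fin_cases i <;> fin_cases j <;> fin_cases a <;> fin_cases b <;> simp at hσ hτ hc <;>
    fin_cases k <;> simp at h1 h2 h1' h2' s1 s2 s3 s4 ⊢ <;> assumption

theorem ex_reg {g : ℕ} {ν : Fin 3 → ℤ} {σ : Fin 3 × Fin 3} (hσ : σ.1 ≠ σ.2)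
    (h : Ex g (back σ ν)) (hr : Reg g (back σ ν) σ) : Ex g ν := by
  have e : back σ ν σ.1 - back σ ν σ.2 = 2 * (ν σ.1 - ν σ.2) := by
    rw [back_fst, back_ne σ ν hσ.symm]; ring
  refine ⟨all_of_base σ.2 ?_, ?_⟩
  · intro k
    by_cases hk : k = σ.1
    · simp only [Reg] at hr
      rw [e, pow_succ, mul_comm] at hr
      rw [hk]
      exact Int.dvd_of_mul_dvd_mul_left (by norm_num) hr
    · have := h.1 k σ.2
      rwa [back_ne σ ν hk, back_ne σ ν hσ.symm] at this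
  · intro H
    apply h.2
    refine all_of_base σ.2 ?_
    intro k
    by_cases hk : k = σ.1
    · rw [hk]; exact hr
    · rw [back_ne σ ν hk, back_ne σ ν hσ.symm]; exact H _ _

theorem ex_spec {g : ℕ} {ν : Fin 3 → ℤ} {σ : Fin 3 × Fin 3} (hσ : σ.1 ≠ σ.2)
    (h : Ex g (back σ ν)) (hr : ¬ Reg g (back σ ν) σ) : ∃ g', g = g' + 1 ∧ Ex g' ν := by
  have e : back σ ν σ.1 - back σ ν σ.2 = 2 * (ν σ.1 - ν σ.2) := by
    rw [back_fst, back_ne σ ν hσ.symm]; ring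
  simp only [Reg] at hr
  rw [e] at hr
  cases g with
  | zero => exact absurd (by simp) hr
  | succ g =>
    refine ⟨g, rfl, all_of_base σ.2 ?_, ?_⟩
    · intro k
      by_cases hk : k = σ.1
      · have := h.1 σ.1 σ.2
        rw [e, pow_succ, mul_comm] at this
        rw [hk]
        exact Int.dvd_of_mul_dvd_mul_left (by norm_num) this
      · have := h.1 k σ.2
        rw [back_ne σ ν hk, back_ne σ ν hσ.symm] at this
        exact (pow_dvd_pow 2 (Nat.le_succ g)).trans this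
    · intro H
      apply hr
      rw [pow_succ, mul_comm]
      exact mul_dvd_mul_left 2 (H _ _)

theorem reg_next {g : ℕ} {ν : Fin 3 → ℤ} {σ τ : Fin 3 × Fin 3} (hσ : σ.1 ≠ σ.2)
    (hτ : τ.1 ≠ τ.2) (h : Ex g (back σ ν)) (hr : Reg g (back σ ν) σ) (h2 : Reg g ν τ) :
    τ.1 = σ.1 ∨ τ.2 = σ.1 := by
  by_contra hc
  push Not at hc
  have h3 : Reg g (back σ ν) τ := by
    simp only [Reg] at h2 ⊢
    rwa [back_ne σ ν hc.1, back_ne σ ν hc.2]
  rcases reg_unique h hσ hτ hr h3 with rfl | rfl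
  · exact hc.1 rfl
  · exact hc.2 rfl

theorem no_third {ρ : Fin 3 → ℤ} {σ τ : Fin 3 × Fin 3} (hσ : σ.1 ≠ σ.2) (hτ : τ.1 ≠ τ.2)
    (h1 : τ.2 = σ.1) (h2 : τ.1 ≠ σ.2) (hρ : 1 ≤ spr ρ)
    (c1 : 16 * spr (back τ ρ) ≤ 9 * spr (back σ (back τ ρ)))
    (c2 : 16 * spr ρ ≤ 9 * spr (back τ ρ)) : False := by
  obtain ⟨i, j⟩ := σ
  obtain ⟨a, b⟩ := τ
  simp only at h1
  subst h1
  fin_cases a <;> fin_cases b <;> fin_cases j <;> simp at hσ hτ h2 <;>
    simp [spr, back] at hρ c1 c2 <;> omega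

end Pool.Agent.P.MP_4ebd9a_co
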