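import Pool.Agent.P.MP_4ebd9a_co.Basic

set_option autoImplicit false

namespace Pool.Agent.P.MP_4ebd9a_co

/-- Entries `s, x, z`: `14 x` is within `[-9 T, 5 T]` of `A (x + z)` for `A` on the orbit
`5, 10, 6, 12` of doubling modulo `14`, and `s` is small. -/
def Orb (T : ℕ) (s x z : ℕ) : Prop :=
  0 < s ∧
    ((s = T ∧ 5 * z + 1 ≤ 9 * x + 9 * T ∧ 9 * x ≤ 5 * z + 5 * T) ∨
     (2 * s ≤ T ∧ 10 * z ≤ 4 * x + 9 * T ∧ 4 * x ≤ 10 * z + 5 * T) ∨
     (4 * s ≤ T ∧ 6 * z ≤ 8 * x + 9 * T ∧ 8 * x ≤ 6 * z + 5 * T) ∨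
     (4 * s ≤ T ∧ 12 * z ≤ 2 * x + 9 * T ∧ 2 * x ≤ 12 * z + 5 * T))

theorem orb_moves {T n s x z : ℕ} (hT : 28 * T ≤ 5 * n) (hs : s + x + z = n) (h : Orb T s x z) :
    0 < s ∧ s < x ∧ s < z ∧ x ≠ z ∧ Orb (2 * T) (2 * s) (x - s) z ∧
      Orb (2 * T) (2 * s) x (z - s) ∧ (x ≤ z → Orb (2 * T) s (2 * x) (z - x)) ∧
      (z ≤ x → Orb (2 * T) s (x - z) (2 * z)) := by
  obtain ⟨h0, ⟨h1, h2, h3⟩ | ⟨h1, h2, h3⟩ | ⟨h1, h2, h3⟩ | ⟨h1, h2, h3⟩⟩ := h
  · have a1 : s < x := by omega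
    have a2 : x < z := by omega
    exact ⟨h0, a1, by omega, by omega, ⟨by omega, Or.inl ⟨by omega, by omega, by omega⟩⟩,
      ⟨by omega, Or.inl ⟨by omega, by omega, by omega⟩⟩,
      fun _ => ⟨h0, Or.inr (Or.inl ⟨by omega, by omega, by omega⟩)⟩, fun _ => by omega⟩
  · have a1 : s < z := by omega
    have a2 : z < x := by omega
    exact ⟨h0, by omega, a1, by omega,
      ⟨by omega, Or.inr (Or.inl ⟨by omega, by omega, by omega⟩)⟩,
      ⟨by omega, Or.inr (Or.inl ⟨by omega, by omega, by omega⟩)⟩, fun _ => by omega,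
      fun _ => ⟨h0, Or.inr (Or.inr (Or.inl ⟨by omega, by omega, by omega⟩))⟩⟩
  · have a1 : s < x := by omega
    have a2 : x < z := by omega
    exact ⟨h0, a1, by omega, by omega,
      ⟨by omega, Or.inr (Or.inr (Or.inl ⟨by omega, by omega, by omega⟩))⟩,
      ⟨by omega, Or.inr (Or.inr (Or.inl ⟨by omega, by omega, by omega⟩))⟩,
      fun _ => ⟨h0, Or.inr (Or.inr (Or.inr ⟨by omega, by omega, by omega⟩))⟩, fun _ => by omega⟩
  · have a1 : s < z := by omega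
    have a2 : z < x := by omega
    exact ⟨h0, by omega, a1, by omega,
      ⟨by omega, Or.inr (Or.inr (Or.inr ⟨by omega, by omega, by omega⟩))⟩,
      ⟨by omega, Or.inr (Or.inr (Or.inr ⟨by omega, by omega, by omega⟩))⟩, fun _ => by omega,
      fun _ => ⟨h0, Or.inr (Or.inl ⟨by omega, by omega, by omega⟩)⟩⟩

/-- The invariant for some naming of the three vessels. -/
def InvO (T n : ℕ) (a : Fin 3 → ℕ) : Prop :=
  ∃ i j k : Fin 3, i ≠ j ∧ i ≠ k ∧ j ≠ k ∧ a i + a j + a k = n ∧ Orb T (a i) (a j) (a k)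

theorem invO_step {T n : ℕ} {a b : Fin 3 → ℕ} (hT : 28 * T ≤ 5 * n) (h : InvO T n a)
    (hs : Step a b) : InvO (2 * T) n b ∧ ∀ p, 0 < b p := by
  obtain ⟨p, q, hpq, hle, hp, hq, hr⟩ := hs
  obtain ⟨i, j, k, hij, hik, hjk, hsum, hS⟩ := h
  obtain ⟨h0, h1, h2, h3, A, B, C, D⟩ := orb_moves hT hsum hS
  have pos : ∀ u, 0 < b i → 0 < b j → 0 < b k → 0 < b u := by
    intro u e1 e2 e3
    rcases fin3_cases i j k u hij hik hjk with rfl | rfl | rfl <;> assumption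
  rcases fin3_cases i j k p hij hik hjk with rfl | rfl | rfl <;>
    rcases fin3_cases _ _ _ q hij hik hjk with rfl | rfl | rfl
  · exact absurd rfl hpq
  · have e := hr k hik.symm hjk.symm
    exact ⟨⟨p, q, k, hij, hik, hjk, by omega, by rw [hp, hq, e]; exact A⟩,
      fun u => pos u (by omega) (by omega) (by omega)⟩
  · have e := hr j hij.symm hjk
    exact ⟨⟨p, j, q, hij, hik, hjk, by omega, by rw [hp, hq, e]; exact B⟩,
      fun u => pos u (by omega) (by omega) (by omega)⟩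
  · omega
  · exact absurd rfl hpq
  · have e := hr i hij hik
    exact ⟨⟨i, p, q, hij, hik, hjk, by omega, by rw [hp, hq, e]; exact C hle⟩,
      fun u => pos u (by omega) (by omega) (by omega)⟩
  · omega
  · have e := hr i hik hij
    exact ⟨⟨i, q, p, hij, hik, hjk, by omega, by rw [hp, hq, e]; exact D hle⟩,
      fun u => pos u (by omega) (by omega) (by omega)⟩
  · exact absurd rfl hpq

theorem upper56 {N n : ℕ} (hN : 1 ≤ N) (hn : 28 * 2 ^ (N - 1) ≤ 5 * n) : ¬ AllPourable N n := by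
  intro H
  have hpos : 1 ≤ 2 ^ (N - 1) := Nat.one_le_two_pow
  have h6 : 6 ≤ n := by omega
  obtain ⟨y, hy1, hy2⟩ : ∃ y, 14 * y ≤ 5 * n ∧ 5 * n ≤ 14 * y + 13 := ⟨5 * n / 14, by omega, by omega⟩
  have hp : ∀ i, 0 < (![1, y, n - 1 - y] : Fin 3 → ℕ) i := by
    intro i
    fin_cases i
    · simp
    · simp; omega
    · simp; omega
  obtain ⟨l, s, hl, h0, hs, i, hz⟩ := H ![1, y, n - 1 - y] hp (by simp; omega)
  have main : ∀ t, t ≤ l → InvO (2 ^ t) n (s t) ∧ ∀ p, 0 < s t p := by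
    intro t
    induction t with
    | zero =>
      intro _
      rw [h0]
      refine ⟨⟨0, 1, 2, by decide, by decide, by decide, by simp; omega, ?_⟩, hp⟩
      refine ⟨by simp, Or.inl ⟨by simp, by simp; omega, by simp; omega⟩⟩
    | succ t ih =>
      intro ht
      have hle : 2 ^ t ≤ 2 ^ (N - 1) := Nat.pow_le_pow_right (by norm_num) (by omega)
      rw [pow_succ, mul_comm]
      exact invO_step (by omega) (ih (by omega)).1 (hs t (by omega))
  have := (main l le_rfl).2 i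
  omega

end Pool.Agent.P.MP_4ebd9a_co
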