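import Pool.Agent.P.MP_4ebd9a_co.Mult

set_option autoImplicit false

namespace Pool.Agent.P.MP_4ebd9a_co

/-- Moves that can follow a given move at low cost. -/
def alw : Option (Fin 3 × Fin 3) → Finset (Fin 3 × Fin 3)
  | none => syms
  | some σ => syms.filter (fun τ => τ.1 = σ.1 ∨ τ = σ.swap)

theorem card_alw_some : ∀ σ : Fin 3 × Fin 3, (alw (some σ)).card ≤ 3 := by decide

/-- Words of length `t` with at most `K` free letters. -/
def Adm : ℕ → ℕ → Option (Fin 3 × Fin 3) → Finset (List (Fin 3 × Fin 3))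
  | 0, _, _ => {[]}
  | t + 1, K, p => (alw p).biUnion (fun σ => (Adm t K (some σ)).image (fun u => σ :: u)) ∪
      (if K = 0 then ∅ else syms.biUnion (fun σ => (Adm t (K - 1) none).image (fun u => σ :: u)))

theorem card_Adm : ∀ (t K : ℕ), (∀ σ, ((Adm t K (some σ)).card : ℝ) ≤ 200 ^ K * 3.06 ^ t) ∧
    ((Adm t K none).card : ℝ) ≤ 2 * 200 ^ K * 3.06 ^ t := by
  intro t
  induction t with
  | zero =>
    intro K
    have : (1 : ℝ) ≤ 200 ^ K := one_le_pow₀ (by norm_num)
    refine ⟨fun σ => ?_, ?_⟩ <;> simp [Adm] <;> linarith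
  | succ t ih =>
    intro K
    have hp : (0 : ℝ) ≤ 200 ^ K * 3.06 ^ t := by positivity
    have A : ∀ p, (((alw p).biUnion
        (fun σ => (Adm t K (some σ)).image (fun u => σ :: u))).card : ℝ) ≤
        (alw p).card * (200 ^ K * 3.06 ^ t) := by
      intro p
      have h1 : (((alw p).biUnion
          (fun σ => (Adm t K (some σ)).image (fun u => σ :: u))).card : ℝ) ≤
          ∑ σ ∈ alw p, (((Adm t K (some σ)).image (fun u => σ :: u)).card : ℝ) := by
        exact_mod_cast Finset.card_biUnion_le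
      refine h1.trans ?_
      rw [← nsmul_eq_mul]
      refine Finset.sum_le_card_nsmul _ _ _ ?_
      intro σ _
      refine le_trans ?_ ((ih K).1 σ)
      exact_mod_cast Finset.card_image_le
    have B : (((if K = 0 then ∅ else syms.biUnion
        (fun σ => (Adm t (K - 1) none).image (fun u => σ :: u))) :
          Finset (List (Fin 3 × Fin 3))).card : ℝ) ≤ 0.06 * (200 ^ K * 3.06 ^ t) := by
      split_ifs with hK
      · simp only [Finset.card_empty, Nat.cast_zero]; positivity
      · obtain ⟨K', rfl⟩ := Nat.exists_eq_succ_of_ne_zero hK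
        have h1 : ((syms.biUnion
            (fun σ => (Adm t (K'.succ - 1) none).image (fun u => σ :: u))).card : ℝ) ≤
            ∑ σ ∈ syms, (((Adm t (K'.succ - 1) none).image (fun u => σ :: u)).card : ℝ) := by
          exact_mod_cast Finset.card_biUnion_le
        refine h1.trans ?_
        have h2 : ∀ σ ∈ syms, (((Adm t (K'.succ - 1) none).image (fun u => σ :: u)).card : ℝ) ≤
            2 * 200 ^ K' * 3.06 ^ t := by
          intro σ _
          refine le_trans ?_ (ih K').2
          exact_mod_cast Finset.card_image_le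
        refine (Finset.sum_le_card_nsmul _ _ _ h2).trans (le_of_eq ?_)
        rw [card_syms, nsmul_eq_mul, pow_succ]
        push_cast
        ring
    have C : ∀ p, ((Adm (t + 1) K p).card : ℝ) ≤
        (alw p).card * (200 ^ K * 3.06 ^ t) + 0.06 * (200 ^ K * 3.06 ^ t) := by
      intro p
      refine le_trans ?_ (add_le_add (A p) B)
      rw [Adm]
      exact_mod_cast Finset.card_union_le _ _
    refine ⟨fun σ => (C _).trans ?_, (C _).trans ?_⟩
    · have : ((alw (some σ)).card : ℝ) ≤ 3 := by exact_mod_cast card_alw_some σ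
      rw [pow_succ]
      nlinarith
    · have : ((alw none).card : ℝ) = 6 := by simp [alw, card_syms]
      rw [this, pow_succ]
      nlinarith

/-- Backward action of a word. -/
def backL (u : List (Fin 3 × Fin 3)) (ν : Fin 3 → ℤ) : Fin 3 → ℤ := u.foldr back ν

/-- The previous move, if recorded, kept the level and was of low cost. -/
def PrevOK (g : ℕ) (l : Fin 3 → ℤ) : Option (Fin 3 × Fin 3) → Prop
  | none => True
  | some σ => σ.1 ≠ σ.2 ∧ Ex g (back σ l) ∧ Reg g (back σ l) σ ∧ 16 * spr l ≤ 9 * spr (back σ l)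

theorem mem_Adm (c : ℕ) : ∀ (t K K1 g : ℕ) (p : Option (Fin 3 × Fin 3)) (l : Fin 3 → ℤ),
    Good (c + t) l → Ex g l → 2 ^ (c + t) * 8 ^ K1 < 9 ^ K1 * spr l → PrevOK g l p →
    K1 + g ≤ K → ∃ u ν g', u ∈ Adm t K p ∧ l = backL u ν ∧ Good c ν ∧ Ex g' ν ∧ g' ≤ g ∧
      u.length = t ∧ ∀ σ ∈ u, σ.1 ≠ σ.2 := by
  intro t
  induction t with
  | zero =>
    intro K K1 g p l hg hex _ _ _
    exact ⟨[], l, g, by simp [Adm], rfl, hg, hex, le_rfl, rfl, by simp⟩
  | succ t ih =>
    intro K K1 g p l hg hex hsl hp hK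
    have hgl := good_spr _ _ hg
    obtain ⟨σ, ν, hσ, rfl, hν⟩ := hg
    have hs := spr_back_le σ ν
    have hν1 := (good_spr _ _ hν).1
    have h9 : (0 : ℤ) < 9 ^ K1 := by positivity
    have hkeep : 2 ^ (c + t) * 8 ^ K1 < 9 ^ K1 * spr ν := by
      rw [← add_assoc, pow_succ] at hsl
      nlinarith
    have free : ∀ K1' g', K ≠ 0 → Ex g' ν → g' ≤ g → 2 ^ (c + t) * 8 ^ K1' < 9 ^ K1' * spr ν →
        K1' + g' ≤ K - 1 → ∃ u ρ g'', u ∈ Adm (t + 1) K p ∧ back σ ν = backL u ρ ∧ Good c ρ ∧
          Ex g'' ρ ∧ g'' ≤ g ∧ u.length = t + 1 ∧ ∀ σ ∈ u, σ.1 ≠ σ.2 := by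
      intro K1' g' hK0 he hle hs' hK'
      obtain ⟨u, ρ, g'', h1, h2, h3, h4, h5, h6, h7⟩ := ih (K - 1) K1' g' none ν hν he hs' trivial hK'
      refine ⟨σ :: u, ρ, g'', ?_, by rw [h2]; rfl, h3, h4, h5.trans hle, by simp [h6], ?_⟩
      · rw [Adm, if_neg hK0]
        exact Finset.mem_union_right _ (Finset.mem_biUnion.mpr
          ⟨σ, mem_syms.mpr hσ, Finset.mem_image_of_mem _ h1⟩)
      · intro τ hτ
        rcases List.mem_cons.mp hτ with rfl | h
        · exact hσ
        · exact h7 τ h
    by_cases hr : Reg g (back σ ν) σ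
    · have he := ex_reg hσ hex hr
      by_cases hc : 16 * spr ν ≤ 9 * spr (back σ ν)
      · obtain ⟨u, ρ, g'', h1, h2, h3, h4, h5, h6, h7⟩ :=
          ih K K1 g (some σ) ν hν he hkeep ⟨hσ, hex, hr, hc⟩ hK
        refine ⟨σ :: u, ρ, g'', ?_, by rw [h2]; rfl, h3, h4, h5, by simp [h6], ?_⟩
        · rw [Adm]
          refine Finset.mem_union_left _ (Finset.mem_biUnion.mpr
            ⟨σ, ?_, Finset.mem_image_of_mem _ h1⟩)
          cases p with
          | none => exact mem_syms.mpr hσ
          | some τ =>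
            obtain ⟨q1, q2, q3, q4⟩ := hp
            refine Finset.mem_filter.mpr ⟨mem_syms.mpr hσ, ?_⟩
            rcases reg_next q1 hσ q2 q3 hr with h | h
            · exact Or.inl h
            · right
              by_contra hne
              refine no_third q1 hσ h ?_ hν1 q4 hc
              intro h'
              exact hne (Prod.ext h' h)
        · intro τ hτ
          rcases List.mem_cons.mp hτ with rfl | h
          · exact hσ
          · exact h7 τ h
      · cases K1 with
        | zero => simp at hsl; omega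
        | succ K1 =>
          refine free K1 g (by omega) he le_rfl ?_ (by omega)
          rw [← add_assoc, pow_succ, pow_succ, pow_succ] at hsl
          have h9' : (0 : ℤ) < 9 ^ K1 := by positivity
          nlinarith
    · obtain ⟨g', rfl, he⟩ := ex_spec hσ hex hr
      exact free K1 g' (by omega) he (by omega) hkeep (by omega)

/-- Determinant of the difference vectors. -/
def det2 (a b : Fin 3 → ℤ) : ℤ := (a 0 - a 2) * (b 1 - b 2) - (a 1 - a 2) * (b 0 - b 2)

theorem det2_back {σ : Fin 3 × Fin 3} (hσ : σ.1 ≠ σ.2) (a b : Fin 3 → ℤ) :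
    det2 (back σ a) (back σ b) = 2 * det2 a b := by
  obtain ⟨i, j⟩ := σ
  fin_cases i <;> fin_cases j <;> simp at hσ <;> simp [det2, back] <;> ring

theorem det2_backL (a b : Fin 3 → ℤ) : ∀ u : List (Fin 3 × Fin 3), (∀ σ ∈ u, σ.1 ≠ σ.2) →
    det2 (backL u a) (backL u b) = 2 ^ u.length * det2 a b
  | [], _ => by simp [backL]
  | σ :: u, h => by
    have := det2_backL a b u (fun τ hτ => h τ (List.mem_cons_of_mem _ hτ))
    have e : ∀ x, backL (σ :: u) x = back σ (backL u x) := fun x => rfl
    rw [e, e, det2_back (h σ List.mem_cons_self), this, List.length_cons, pow_succ]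
    ring

theorem spr_backL (a : Fin 3 → ℤ) : ∀ u : List (Fin 3 × Fin 3),
    spr (backL u a) ≤ 2 ^ u.length * spr a
  | [] => by simp [backL]
  | σ :: u => by
    have := spr_backL a u
    have e : backL (σ :: u) a = back σ (backL u a) := rfl
    have h := spr_back_le σ (backL u a)
    rw [e, List.length_cons, pow_succ]
    linarith

theorem backL_shift : ∀ (u : List (Fin 3 × Fin 3)), (∀ σ ∈ u, σ.1 ≠ σ.2) →
    ∀ (a b : Fin 3 → ℤ) (μ : ℤ), (fun k => backL u a k + μ) = backL u b → b = fun k => a k + μ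
  | [], _, a, b, μ, h => h.symm
  | σ :: u, hu, a, b, μ, h => by
    have hσ := hu σ List.mem_cons_self
    refine backL_shift u (fun τ hτ => hu τ (List.mem_cons_of_mem _ hτ)) a b μ ?_
    have e : ∀ x, backL (σ :: u) x = back σ (backL u x) := fun x => rfl
    rw [e, e] at h
    have e1 := congrFun h σ.1
    have e2 := congrFun h σ.2
    rw [back_fst, back_fst] at e1
    rw [back_ne _ _ hσ.symm, back_ne _ _ hσ.symm] at e2
    funext k
    by_cases hk : k = σ.1
    · rw [hk]; omega
    · have := congrFun h k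
      rwa [back_ne _ _ hk, back_ne _ _ hk] at this

theorem abs_det2_le (a b : Fin 3 → ℤ) : |det2 a b| ≤ 2 * (spr a * spr b) := by
  have h1 := abs_le_spr a 0 2
  have h2 := abs_le_spr a 1 2
  have h3 := abs_le_spr b 0 2
  have h4 := abs_le_spr b 1 2
  have h0 : 0 ≤ spr a := (abs_nonneg _).trans h1
  unfold det2
  refine (abs_sub _ _).trans ?_
  rw [abs_mul, abs_mul]
  have := mul_le_mul h1 h4 (abs_nonneg _) h0
  have := mul_le_mul h2 h3 (abs_nonneg _) h0
  linarith

end Pool.Agent.P.MP_4ebd9a_co
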